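import Mathlib

/-! Relations on a finite set: the supports and the pairs of elements that can be distinguished. -/

set_option autoImplicit false

namespace Pool.Agent.TH442.RS

open Finset

variable {X W : Type} [Fintype X] [DecidableEq X] [Fintype W] {K : ℕ}

/-- the relation after renaming the elements -/
def rn (τ : Equiv.Perm X) (r : (Fin K → X) → Bool) : (Fin K → X) → Bool :=
  fun x => r (fun i => τ (x i))

/-- the entries which are not in `Z` are replaced by `x` -/
def sub (Z : Finset X) (x : X) (a : Fin K → X) : Fin K → X := fun i => if a i ∈ Z then a i else x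

/-- some tuple of elements of `Z` distinguishes `x` and `x'` -/
def Dst (r : (Fin K → X) → Bool) (Z : Finset X) (x x' : X) : Prop :=
  ∃ a, r (sub Z x a) ≠ r (sub Z x' a)

/-- the set is a support -/
def Sup (r : (Fin K → X) → Bool) (S : Finset X) : Prop :=
  ∀ τ : Equiv.Perm X, (∀ x ∈ S, τ x = x) → rn τ r = r

omit [Fintype X] [DecidableEq X] in
theorem rn_rn (σ τ : Equiv.Perm X) (r : (Fin K → X) → Bool) : rn τ (rn σ r) = rn (σ * τ) r := rfl

omit [Fintype X] [DecidableEq X] in
theorem rn_one (r : (Fin K → X) → Bool) : rn 1 r = r := rfl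

omit [Fintype X] in
theorem dst_rn (τ : Equiv.Perm X) (r : (Fin K → X) → Bool) (Z : Finset X) (x x' : X) :
    Dst (rn τ r) Z x x' ↔ Dst r (Z.image τ) (τ x) (τ x') := by
  have key : ∀ (y : X) (a : Fin K → X), (fun i => τ (sub Z y a i)) =
      sub (Z.image τ) (τ y) (fun i => τ (a i)) := by
    intro y a
    funext i
    unfold sub
    by_cases h : a i ∈ Z
    · rw [if_pos h, if_pos (Finset.mem_image_of_mem _ h)]
    · rw [if_neg h, if_neg]
      rw [Finset.mem_image]
      rintro ⟨b, hb, hb'⟩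
      exact h (τ.injective hb' ▸ hb)
  constructor
  · rintro ⟨a, ha⟩
    refine ⟨fun i => τ (a i), ?_⟩
    rw [← key, ← key]
    exact ha
  · rintro ⟨a, ha⟩
    refine ⟨fun i => τ.symm (a i), ?_⟩
    show r (fun i => τ (sub Z x (fun i => τ.symm (a i)) i)) ≠
      r (fun i => τ (sub Z x' (fun i => τ.symm (a i)) i))
    rw [key, key]
    simpa using ha

omit [Fintype X] in
theorem dst_mono {r : (Fin K → X) → Bool} {Z Z' : Finset X} (h : Z ⊆ Z') {x x' : X}
    (hx : x ∉ Z') (h' : Dst r Z x x') : Dst r Z' x x' := by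
  obtain ⟨a, ha⟩ := h'
  have key : ∀ y : X, sub Z' y (sub Z x a) = sub Z y a := by
    intro y
    funext i
    unfold sub
    by_cases h1 : a i ∈ Z
    · simp only [if_pos h1, if_pos (h h1)]
    · simp only [if_neg h1, if_neg hx]
  refine ⟨sub Z x a, ?_⟩
  rw [key, key]
  exact ha

omit [Fintype X] in
theorem dst_comm {r : (Fin K → X) → Bool} {Z : Finset X} {x x' : X} :
    Dst r Z x x' ↔ Dst r Z x' x := by
  unfold Dst
  exact exists_congr fun a => ne_comm

omit [Fintype X] in
/-- a distinguished pair meets the support -/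
theorem sup_meets {r : (Fin K → X) → Bool} {S : Finset X} (hS : Sup r S) {Z : Finset X} {x x' : X}
    (hx : x ∉ Z) (hx' : x' ∉ Z) (h : Dst r Z x x') : x ∈ S ∨ x' ∈ S := by
  by_contra hcon
  push Not at hcon
  obtain ⟨a, ha⟩ := h
  apply ha
  have h1 := hS (Equiv.swap x x') fun y hy => Equiv.swap_apply_of_ne_of_ne
    (fun h => hcon.1 (h ▸ hy)) (fun h => hcon.2 (h ▸ hy))
  have h2 := congrFun h1 (sub Z x a)
  rw [← h2]
  unfold rn
  congr 1
  funext i
  unfold sub
  by_cases h3 : a i ∈ Z
  · rw [if_pos h3, if_pos h3, Equiv.swap_apply_of_ne_of_ne (fun h : a i = x => hx (h ▸ h3))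
      (fun h : a i = x' => hx' (h ▸ h3))]
  · rw [if_neg h3, if_neg h3, Equiv.swap_apply_left]

/-- the elements different from both -/
def co (x x' : X) : Finset X := Finset.univ.filter (fun y => y ≠ x ∧ y ≠ x')

theorem mem_co {x x' y : X} : y ∈ co x x' ↔ y ≠ x ∧ y ≠ x' := by
  unfold co
  simp

/-- replacing an element by a twin -/
theorem move {r : (Fin K → X) → Bool} {u z : X} (h : ¬ Dst r (co u z) u z) {a : Fin K → X}
    (ha : ∀ i, a i ≠ z) : r (fun i => if a i = u then z else a i) = r a := by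
  by_contra hcon
  apply h
  refine ⟨a, fun h' => hcon ?_⟩
  have h1 : sub (co u z) u a = a := by
    funext i
    unfold sub
    split_ifs with h1
    · rfl
    · rw [mem_co] at h1
      by_contra h2
      exact h1 ⟨fun h3 => h2 h3.symm, ha i⟩
  have h2 : sub (co u z) z a = fun i => if a i = u then z else a i := by
    funext i
    unfold sub
    by_cases h3 : a i = u
    · rw [if_pos h3, if_neg]
      rw [mem_co]
      tauto
    · rw [if_neg h3, if_pos]
      rw [mem_co]
      exact ⟨h3, ha i⟩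
  rw [h1, h2] at h'
  exact h'.symm

/-- two elements with two common twins outside the tuple can be exchanged -/
theorem swap_of_twins {r : (Fin K → X) → Bool} {u v z z' : X} (huv : u ≠ v) (hzz : z ≠ z')
    (hzu : z ≠ u) (hzv : z ≠ v) (hzu' : z' ≠ u) (hzv' : z' ≠ v)
    (h1 : ¬ Dst r (co u z) u z) (h2 : ¬ Dst r (co v z') v z') (h3 : ¬ Dst r (co z v) z v)
    (h4 : ¬ Dst r (co z' u) z' u) {a : Fin K → X} (ha : ∀ i, a i ≠ z) (ha' : ∀ i, a i ≠ z') :
    r (fun i => Equiv.swap u v (a i)) = r a := by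
  classical
  set a1 : Fin K → X := fun i => if a i = u then z else a i with ha1
  set a2 : Fin K → X := fun i => if a1 i = v then z' else a1 i with ha2
  set a3 : Fin K → X := fun i => if a2 i = z then v else a2 i with ha3
  set a4 : Fin K → X := fun i => if a3 i = z' then u else a3 i with ha4
  have e1 : r a1 = r a := move h1 ha
  have e2 : r a2 = r a1 := by
    refine move h2 fun i => ?_
    rw [ha1]
    dsimp only
    split_ifs with h
    · exact hzz
    · exact ha' i
  have f1 : ∀ i, a1 i ≠ u := by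
    intro i
    rw [ha1]
    dsimp only
    split_ifs with h
    · exact hzu
    · exact h
  have f2 : ∀ i, a2 i ≠ v := by
    intro i
    rw [ha2]
    dsimp only
    split_ifs with h
    · exact hzv'
    · exact h
  have f3 : ∀ i, a2 i ≠ u := by
    intro i
    rw [ha2]
    dsimp only
    split_ifs with h
    · exact hzu'
    · exact f1 i
  have e3 : r a3 = r a2 := move h3 f2
  have f4 : ∀ i, a3 i ≠ u := by
    intro i
    rw [ha3]
    dsimp only
    split_ifs with h
    · exact huv.symm
    · exact f3 i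
  have e4 : r a4 = r a3 := move h4 f4
  rw [← e1, ← e2, ← e3, ← e4]
  congr 1
  funext i
  have g4 : a4 i = if a3 i = z' then u else a3 i := rfl
  have g3 : a3 i = if a2 i = z then v else a2 i := rfl
  have g2 : a2 i = if a1 i = v then z' else a1 i := rfl
  have g1 : a1 i = if a i = u then z else a i := rfl
  by_cases hu : a i = u
  · rw [if_pos hu] at g1
    rw [g1, if_neg hzv] at g2
    rw [g2, if_pos rfl] at g3
    rw [g3, if_neg hzv'.symm] at g4
    rw [g4, hu, Equiv.swap_apply_left]
  · by_cases hv : a i = v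
    · rw [if_neg hu] at g1
      rw [g1, if_pos hv] at g2
      rw [g2, if_neg hzz.symm] at g3
      rw [g3, if_pos rfl] at g4
      rw [g4, hv, Equiv.swap_apply_right]
    · rw [if_neg hu] at g1
      rw [g1, if_neg hv] at g2
      rw [g2, if_neg (ha i)] at g3
      rw [g3, if_neg (ha' i)] at g4
      rw [g4, Equiv.swap_apply_of_ne_of_ne hu hv]

open Classical in
/-- the elements that are distinguished from `u` -/
noncomputable def nt (r : (Fin K → X) → Bool) (u : X) : Finset X :=
  Finset.univ.filter (fun z => Dst r (co u z) u z)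

theorem mem_nt {r : (Fin K → X) → Bool} {u z : X} : z ∈ nt r u ↔ Dst r (co u z) u z := by
  unfold nt
  simp

theorem co_comm (x x' : X) : co x x' = co x' x := by
  ext y
  rw [mem_co, mem_co, and_comm]

theorem mem_nt' {r : (Fin K → X) → Bool} {u z : X} : z ∈ nt r u ↔ Dst r (co z u) z u := by
  rw [mem_nt, co_comm, dst_comm]

/-- the elements with few distinguished elements can be exchanged -/
theorem swap_low {r : (Fin K → X) → Bool} (hN : 2 * K + 8 ≤ Fintype.card X) {u v : X}
    (huv : u ≠ v) (hu : 4 * (nt r u).card < Fintype.card X)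
    (hv : 4 * (nt r v).card < Fintype.card X) : rn (Equiv.swap u v) r = r := by
  funext a
  set B : Finset X := nt r u ∪ nt r v ∪ (Finset.univ.image a ∪ {u, v}) with hB
  have h1 : B.card + 2 ≤ Fintype.card X := by
    have e1 : B.card ≤ (nt r u).card + (nt r v).card + (K + 2) := by
      refine (Finset.card_union_le _ _).trans (Nat.add_le_add (Finset.card_union_le _ _) ?_)
      refine (Finset.card_union_le _ _).trans (Nat.add_le_add ?_ Finset.card_le_two)
      refine Finset.card_image_le.trans ?_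
      simp
    omega
  have h2 : 1 < Bᶜ.card := by
    rw [Finset.card_compl]
    omega
  obtain ⟨z, hz, z', hz', hzz⟩ := Finset.one_lt_card.1 h2
  have h3 : ∀ y ∈ Bᶜ, y ∉ nt r u ∧ y ∉ nt r v ∧ (∀ i, a i ≠ y) ∧ y ≠ u ∧ y ≠ v := by
    intro y hy
    rw [Finset.mem_compl, hB] at hy
    simp only [Finset.mem_union, Finset.mem_insert, Finset.mem_singleton, Finset.mem_image,
      Finset.mem_univ, true_and, not_or, not_exists] at hy
    exact ⟨hy.1.1, hy.1.2, hy.2.1, hy.2.2.1, hy.2.2.2⟩
  obtain ⟨b1, b2, b3, b4, b5⟩ := h3 z hz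
  obtain ⟨c1, c2, c3, c4, c5⟩ := h3 z' hz'
  exact swap_of_twins huv hzz b4 b5 c4 c5 (fun h => b1 (mem_nt.2 h)) (fun h => c2 (mem_nt.2 h))
    (fun h => b2 (mem_nt'.2 h)) (fun h => c1 (mem_nt'.2 h)) b3 c3

/-- The elements with many distinguished elements are a support. -/
theorem sup_high {r : (Fin K → X) → Bool} (hN : 2 * K + 8 ≤ Fintype.card X) :
    Sup r (Finset.univ.filter (fun u => Fintype.card X ≤ 4 * (nt r u).card)) := by
  have key : ∀ (k : ℕ) (τ : Equiv.Perm X), τ.support.card = k →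
      (∀ x ∈ τ.support, 4 * (nt r x).card < Fintype.card X) → rn τ r = r := by
    intro k
    induction k using Nat.strong_induction_on with
    | _ k ih =>
      intro τ hk hτ
      by_cases h1 : τ = 1
      · rw [h1, rn_one]
      · obtain ⟨x, hx⟩ : ∃ x, τ x ≠ x := by
          by_contra hcon
          push Not at hcon
          exact h1 (Equiv.ext hcon)
        have h2 := Equiv.Perm.card_support_swap_mul hx
        have h3 : τ = Equiv.swap x (τ x) * (Equiv.swap x (τ x) * τ) := by
          rw [← mul_assoc, Equiv.swap_mul_self, one_mul]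
        have hx1 : x ∈ τ.support := Equiv.Perm.mem_support.2 hx
        have hx2 : τ x ∈ τ.support := Equiv.Perm.apply_mem_support.2 hx1
        have h4 : rn (Equiv.swap x (τ x) * τ) r = r := by
          refine ih _ (by omega) _ rfl fun y hy => hτ y ?_
          by_contra hy'
          rw [Equiv.Perm.mem_support] at hy
          apply hy
          rw [Equiv.Perm.notMem_support] at hy'
          show Equiv.swap x (τ x) (τ y) = y
          rw [hy']
          refine Equiv.swap_apply_of_ne_of_ne ?_ ?_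
          · rintro rfl
            exact hx hy'
          · rintro rfl
            exact hx (τ.injective hy')
        rw [h3, ← rn_rn, swap_low hN hx.symm (hτ x hx1) (hτ _ hx2), h4]
  intro τ hτ
  refine key _ τ rfl fun x hx => ?_
  by_contra hcon
  exact Equiv.Perm.mem_support.1 hx (hτ x (by
    rw [Finset.mem_filter]
    exact ⟨Finset.mem_univ _, not_lt.1 hcon⟩))

/-- the least size of a support -/
noncomputable def spp (r : (Fin K → X) → Bool) : ℕ :=
  sInf {k | ∃ S : Finset X, S.card = k ∧ Sup r S}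

omit [DecidableEq X] in
theorem sup_univ (r : (Fin K → X) → Bool) : Sup r Finset.univ := by
  intro τ hτ
  have h1 : τ = 1 := Equiv.ext fun x => hτ x (Finset.mem_univ x)
  rw [h1, rn_one]

omit [Fintype X] [DecidableEq X] in
theorem spp_le {r : (Fin K → X) → Bool} {S : Finset X} (h : Sup r S) : spp r ≤ S.card :=
  Nat.sInf_le ⟨S, rfl, h⟩

omit [DecidableEq X] in
theorem exists_sup (r : (Fin K → X) → Bool) : ∃ S : Finset X, S.card = spp r ∧ Sup r S :=
  Nat.sInf_mem (s := {k | ∃ S : Finset X, S.card = k ∧ Sup r S}) ⟨_, _, rfl, sup_univ r⟩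

theorem pairs_ge {r : (Fin K → X) → Bool} (hN : 2 * K + 8 ≤ Fintype.card X) :
    Fintype.card X * spp r ≤ 4 * ∑ u, (nt r u).card := by
  have h1 := spp_le (sup_high (r := r) hN)
  calc Fintype.card X * spp r
      ≤ Fintype.card X * (Finset.univ.filter
        (fun u => Fintype.card X ≤ 4 * (nt r u).card)).card := Nat.mul_le_mul_left _ h1
    _ = ∑ _u ∈ Finset.univ.filter (fun u => Fintype.card X ≤ 4 * (nt r u).card),
        Fintype.card X := by rw [Finset.sum_const, smul_eq_mul, mul_comm]
    _ ≤ ∑ u ∈ Finset.univ.filter (fun u => Fintype.card X ≤ 4 * (nt r u).card),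
        4 * (nt r u).card := Finset.sum_le_sum fun u hu => (Finset.mem_filter.1 hu).2
    _ ≤ ∑ u, 4 * (nt r u).card :=
        Finset.sum_le_sum_of_subset (Finset.filter_subset _ _)
    _ = 4 * ∑ u, (nt r u).card := by rw [Finset.mul_sum]

/-! ### Weights -/

open Classical in
/-- the weight of an event -/
noncomputable def Sw (ν : ((Fin K → X) → Bool) → ℝ) (Q : ((Fin K → X) → Bool) → Prop) : ℝ :=
  ∑ r, if Q r then ν r else 0

variable {ν : ((Fin K → X) → Bool) → ℝ}

theorem Sw_mono (hν : ∀ r, 0 ≤ ν r) {Q Q' : ((Fin K → X) → Bool) → Prop}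
    (h : ∀ r, Q r → Q' r) : Sw ν Q ≤ Sw ν Q' := by
  classical
  refine Finset.sum_le_sum fun r _ => ?_
  by_cases h1 : Q r
  · rw [if_pos h1, if_pos (h r h1)]
  · rw [if_neg h1]
    split_ifs
    · exact hν r
    · exact le_rfl

theorem Sw_nonneg (hν : ∀ r, 0 ≤ ν r) (Q : ((Fin K → X) → Bool) → Prop) : 0 ≤ Sw ν Q := by
  classical
  refine Finset.sum_nonneg fun r _ => ?_
  split_ifs
  · exact hν r
  · exact le_rfl

theorem Sw_congr {Q Q' : ((Fin K → X) → Bool) → Prop} (h : ∀ r, Q r ↔ Q' r) :
    Sw ν Q = Sw ν Q' := by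
  have : Q = Q' := funext fun r => propext (h r)
  rw [this]

/-- renaming as an equivalence -/
def rnE (τ : Equiv.Perm X) : ((Fin K → X) → Bool) ≃ ((Fin K → X) → Bool) where
  toFun := rn τ
  invFun := rn τ⁻¹
  left_inv r := by rw [rn_rn, mul_inv_cancel, rn_one]
  right_inv r := by rw [rn_rn, inv_mul_cancel, rn_one]

theorem Sw_rn (hc : ∀ (τ : Equiv.Perm X) (r : (Fin K → X) → Bool), ν (rn τ r) = ν r)
    (τ : Equiv.Perm X) (Q : ((Fin K → X) → Bool) → Prop) :
    Sw ν (fun r => Q (rn τ r)) = Sw ν Q := by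
  classical
  unfold Sw
  refine Fintype.sum_equiv (rnE τ) _ _ fun r => ?_
  show (if Q (rn τ r) then ν r else 0) = if Q (rn τ r) then ν (rn τ r) else 0
  rw [hc]

theorem image_co (τ : Equiv.Perm X) (x x' : X) : (co x x').image τ = co (τ x) (τ x') := by
  ext y
  rw [Finset.mem_image, mem_co]
  constructor
  · rintro ⟨z, hz, rfl⟩
    rw [mem_co] at hz
    exact ⟨fun h => hz.1 (τ.injective h), fun h => hz.2 (τ.injective h)⟩
  · rintro ⟨h1, h2⟩
    refine ⟨τ.symm y, ?_, by simp⟩
    rw [mem_co]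
    exact ⟨fun h => h1 (by rw [← h]; simp), fun h => h2 (by rw [← h]; simp)⟩

theorem Sw_pair (hc : ∀ (τ : Equiv.Perm X) (r : (Fin K → X) → Bool), ν (rn τ r) = ν r)
    {x x' u z : X} (hx : x ≠ x') (hu : u ≠ z) :
    Sw ν (fun r => Dst r (co x x') x x') = Sw ν (fun r => Dst r (co u z) u z) := by
  set y : X := Equiv.swap x u x' with hy
  set τ : Equiv.Perm X := Equiv.swap y z * Equiv.swap x u with hτ
  have h1 : τ x = u := by
    rw [hτ]
    show Equiv.swap y z (Equiv.swap x u x) = u
    rw [Equiv.swap_apply_left]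
    refine Equiv.swap_apply_of_ne_of_ne (fun h => hx ?_) hu
    apply (Equiv.swap x u).injective
    rw [Equiv.swap_apply_left, ← hy, h]
  have h2 : τ x' = z := by
    rw [hτ]
    show Equiv.swap y z (Equiv.swap x u x') = z
    rw [← hy, Equiv.swap_apply_left]
  rw [← Sw_rn hc τ (fun r => Dst r (co x x') x x')]
  refine Sw_congr fun r => ?_
  rw [dst_rn, image_co, h1, h2]

theorem exists_perm {Z Y : Finset X} {x x' : X} (hZ : Z ⊆ co x x') (hx : x ∉ Y) (hx' : x' ∉ Y)
    (h : Z.card ≤ Y.card) : ∃ τ : Equiv.Perm X, τ x = x ∧ τ x' = x' ∧ Z.image τ ⊆ Y := by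
  classical
  obtain ⟨g⟩ : Nonempty (Z ↪ Y) := by
    rw [Function.Embedding.nonempty_iff_card_le]
    simpa using h
  set f : X → X := fun y => if h : y ∈ Z then (g ⟨y, h⟩ : X) else y with hf
  have f1 : ∀ y ∈ Z, f y ∈ Y := by
    intro y hy
    rw [hf]
    dsimp only
    rw [dif_pos hy]
    exact (g ⟨y, hy⟩).2
  have f2 : ∀ y, y ∉ Z → f y = y := by
    intro y hy
    rw [hf]
    dsimp only
    rw [dif_neg hy]
  have hxZ : x ∉ Z := fun h => (mem_co.1 (hZ h)).1 rfl
  have hxZ' : x' ∉ Z := fun h => (mem_co.1 (hZ h)).2 rfl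
  have f3 : Set.InjOn f (insert x (insert x' Z) : Finset X) := by
    intro y hy y' hy' hyy
    by_cases h1 : y ∈ Z
    · by_cases h2 : y' ∈ Z
      · rw [hf] at hyy
        dsimp only at hyy
        rw [dif_pos h1, dif_pos h2] at hyy
        have h3 := g.injective (Subtype.ext hyy)
        exact congrArg Subtype.val h3
      · exfalso
        rw [f2 y' h2] at hyy
        have h3 := f1 y h1
        rw [hyy] at h3
        rw [Finset.mem_coe, Finset.mem_insert, Finset.mem_insert] at hy'
        rcases hy' with rfl | rfl | h4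
        · exact hx h3
        · exact hx' h3
        · exact h2 h4
    · by_cases h2 : y' ∈ Z
      · exfalso
        rw [f2 y h1] at hyy
        have h3 := f1 y' h2
        rw [← hyy] at h3
        rw [Finset.mem_coe, Finset.mem_insert, Finset.mem_insert] at hy
        rcases hy with rfl | rfl | h4
        · exact hx h3
        · exact hx' h3
        · exact h1 h4
      · rw [f2 y h1, f2 y' h2] at hyy
        exact hyy
  obtain ⟨g', hg'⟩ := Finset.exists_equiv_extend_of_card_eq (α := X) (t := (Finset.univ : Finset X))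
    (by simp) (s := insert x (insert x' Z)) (f := f) (Finset.subset_univ _) f3
  refine ⟨g'.trans (Equiv.subtypeUnivEquiv (by simp)), ?_, ?_, ?_⟩
  · have := hg' x (by simp)
    rw [f2 x hxZ] at this
    exact this
  · have := hg' x' (by simp)
    rw [f2 x' hxZ'] at this
    exact this
  · intro y hy
    rw [Finset.mem_image] at hy
    obtain ⟨z, hz, rfl⟩ := hy
    have h1 := hg' z (by simp [hz])
    have h2 := f1 z hz
    rw [← h1] at h2
    exact h2

theorem Sw_le_Y (hc : ∀ (τ : Equiv.Perm X) (r : (Fin K → X) → Bool), ν (rn τ r) = ν r)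
    (hν : ∀ r, 0 ≤ ν r) {Z Y : Finset X} {x x' : X} (hZ : Z ⊆ co x x') (hx : x ∉ Y)
    (hx' : x' ∉ Y) (h : Z.card ≤ Y.card) :
    Sw ν (fun r => Dst r Z x x') ≤ Sw ν (fun r => Dst r Y x x') := by
  obtain ⟨τ, h1, h2, h3⟩ := exists_perm hZ hx hx' h
  rw [← Sw_rn hc τ (fun r => Dst r Z x x')]
  refine Sw_mono hν fun r hr => ?_
  rw [dst_rn, h1, h2] at hr
  exact dst_mono h3 hx hr

theorem Sw_exists (hν : ∀ r, 0 ≤ ν r) {J : Type} [Fintype J]
    (Q : J → ((Fin K → X) → Bool) → Prop) :
    Sw ν (fun r => ∃ j, Q j r) ≤ ∑ j, Sw ν (Q j) := by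
  classical
  unfold Sw
  rw [Finset.sum_comm]
  refine Finset.sum_le_sum fun r _ => ?_
  have h0 : ∀ j ∈ (Finset.univ : Finset J), 0 ≤ if Q j r then ν r else 0 := by
    intro j _
    split_ifs
    · exact hν r
    · exact le_rfl
  by_cases h : ∃ j, Q j r
  · rw [if_pos h]
    obtain ⟨j, hj⟩ := h
    refine le_trans ?_ (Finset.single_le_sum h0 (Finset.mem_univ j))
    rw [if_pos hj]
  · rw [if_neg h]
    exact Finset.sum_nonneg h0

theorem exists_col {L M : ℕ} (hM : Fintype.card X ≤ M * L) :
    ∃ col : X → Fin M, ∀ j, (Finset.univ.filter (fun x => col x = j)).card ≤ L := by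
  classical
  have e := Fintype.equivFin X
  have h1 : ∀ x : X, (e x : ℕ) / L < M := by
    intro x
    have h2 := (e x).2
    have h3 : (e x : ℕ) < M * L := by omega
    exact Nat.div_lt_of_lt_mul (by rw [mul_comm]; exact h3)
  refine ⟨fun x => ⟨(e x : ℕ) / L, h1 x⟩, fun j => ?_⟩
  have h2 : ∀ x : X, 0 < L := by
    intro x
    have h2 := (e x).2
    rcases Nat.eq_zero_or_pos L with h3 | h3
    · rw [h3] at hM
      omega
    · exact h3
  refine le_trans ?_ (Finset.card_range L).le
  refine Finset.card_le_card_of_injOn (fun x => (e x : ℕ) % L) ?_ ?_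
  · intro x _
    rw [Finset.coe_range, Set.mem_Iio]
    exact Nat.mod_lt _ (h2 x)
  · intro x hx y hy hxy
    rw [Finset.mem_coe, Finset.mem_filter] at hx hy
    have h3 : (e x : ℕ) / L = (e y : ℕ) / L := by
      have := hx.2.trans hy.2.symm
      rwa [Fin.mk.injEq] at this
    dsimp only at hxy
    apply e.injective
    apply Fin.ext
    rw [← Nat.div_add_mod (e x : ℕ) L, ← Nat.div_add_mod (e y : ℕ) L, h3, hxy]

theorem cover (hc : ∀ (τ : Equiv.Perm X) (r : (Fin K → X) → Bool), ν (rn τ r) = ν r)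
    (hν : ∀ r, 0 ≤ ν r) {Y : Finset X} {x x' : X} (hx : x ∉ Y) (hx' : x' ∉ Y) {L M : ℕ}
    (hL : K * L ≤ Y.card) (hM : Fintype.card X ≤ M * L) :
    Sw ν (fun r => Dst r (co x x') x x') ≤ (M : ℝ) ^ K * Sw ν (fun r => Dst r Y x x') := by
  classical
  obtain ⟨col, hcol⟩ := exists_col hM
  set Z : (Fin K → Fin M) → Finset X := fun J =>
    (co x x').filter (fun y => ∃ i, col y = J i) with hZ
  have h1 : ∀ J, (Z J).card ≤ Y.card := by
    intro J
    refine le_trans ?_ hL
    have h2 : Z J ⊆ (Finset.univ : Finset (Fin K)).biUnion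
        (fun i => Finset.univ.filter (fun y => col y = J i)) := by
      intro y hy
      rw [hZ, Finset.mem_filter] at hy
      obtain ⟨i, hi⟩ := hy.2
      rw [Finset.mem_biUnion]
      exact ⟨i, Finset.mem_univ _, Finset.mem_filter.2 ⟨Finset.mem_univ _, hi⟩⟩
    refine (Finset.card_le_card h2).trans (Finset.card_biUnion_le.trans ?_)
    refine (Finset.sum_le_sum fun i _ => hcol (J i)).trans ?_
    simp
  have h2 : Sw ν (fun r => Dst r (co x x') x x') ≤
      Sw ν (fun r => ∃ J, Dst r (Z J) x x') := by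
    refine Sw_mono hν fun r hr => ?_
    obtain ⟨a, ha⟩ := hr
    refine ⟨fun i => col (a i), a, ?_⟩
    have key : ∀ y : X, sub (Z fun i => col (a i)) y a = sub (co x x') y a := by
      intro y
      funext i
      unfold sub
      by_cases h3 : a i ∈ co x x'
      · rw [if_pos h3, if_pos]
        rw [hZ, Finset.mem_filter]
        exact ⟨h3, i, rfl⟩
      · rw [if_neg h3, if_neg]
        rw [hZ, Finset.mem_filter]
        exact fun h => h3 h.1
    rw [key, key]
    exact ha
  refine h2.trans ((Sw_exists hν _).trans ?_)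
  refine (Finset.sum_le_sum fun J _ => Sw_le_Y hc hν (Finset.filter_subset _ _) hx hx'
    (h1 J)).trans ?_
  rw [Finset.sum_const, nsmul_eq_mul]
  simp

/-- **The expected number of pairs that can be distinguished.** -/
theorem count (hK : 1 ≤ K) (hc : ∀ (τ : Equiv.Perm X) (r : (Fin K → X) → Bool), ν (rn τ r) = ν r)
    (hν : ∀ r, 0 ≤ ν r) {Y : Finset X} {p₀ p₁ : W → X} (hp₀ : ∀ w, p₀ w ∉ Y)
    (hp₁ : ∀ w, p₁ w ∉ Y) (hp : ∀ w, p₀ w ≠ p₁ w) (hY : Fintype.card X = 2 * Y.card)
    (hN : 2 * K + 8 ≤ Fintype.card X) (hW : Y.card = 2 * Fintype.card W)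
    [∀ r : (Fin K → X) → Bool, DecidablePred fun w => Dst r Y (p₀ w) (p₁ w)] :
    ∑ r, ν r * (spp r : ℝ) ≤ (16 * (4 * K : ℝ) ^ K) *
      ∑ r, ν r * ((Finset.univ.filter (fun w => Dst r Y (p₀ w) (p₁ w))).card : ℝ) := by
  classical
  have hWpos : 0 < Fintype.card W := by omega
  obtain ⟨w₀⟩ := Fintype.card_pos_iff.1 hWpos
  set m := Sw ν (fun r => Dst r (co (p₀ w₀) (p₁ w₀)) (p₀ w₀) (p₁ w₀)) with hm
  have hm0 : 0 ≤ m := Sw_nonneg hν _
  have h1 : ∑ r, ν r * ((Finset.univ.filter (fun w => Dst r Y (p₀ w) (p₁ w))).card : ℝ) =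
      ∑ w, Sw ν (fun r => Dst r Y (p₀ w) (p₁ w)) := by
    unfold Sw
    rw [Finset.sum_comm]
    refine Finset.sum_congr rfl fun r _ => ?_
    rw [Finset.card_filter]
    push_cast
    rw [Finset.mul_sum]
    refine Finset.sum_congr rfl fun w _ => ?_
    split_ifs <;> simp
  have h2 : ∑ r, ν r * ((∑ u, (nt r u).card : ℕ) : ℝ) =
      ∑ u, ∑ z, Sw ν (fun r => Dst r (co u z) u z) := by
    have h3 : ∀ u : X, ∑ z, Sw ν (fun r => Dst r (co u z) u z) =
        ∑ r, ν r * ((nt r u).card : ℝ) := by
      intro u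
      unfold Sw nt
      rw [Finset.sum_comm]
      refine Finset.sum_congr rfl fun r _ => ?_
      rw [Finset.card_filter]
      push_cast
      rw [Finset.mul_sum]
      refine Finset.sum_congr rfl fun w _ => ?_
      split_ifs <;> simp
    rw [Finset.sum_congr rfl fun u _ => h3 u, Finset.sum_comm]
    refine Finset.sum_congr rfl fun r _ => ?_
    push_cast
    rw [Finset.mul_sum]
  have h3 : ∀ u z : X, Sw ν (fun r => Dst r (co u z) u z) ≤ m := by
    intro u z
    by_cases huz : u = z
    · subst huz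
      refine le_trans (le_of_eq ?_) hm0
      unfold Sw
      refine Finset.sum_eq_zero fun r _ => ?_
      rw [if_neg]
      rintro ⟨a, ha⟩
      exact ha rfl
    · exact (Sw_pair hc huz (hp w₀)).le
  have h4 : (Fintype.card X : ℝ) * ∑ r, ν r * (spp r : ℝ) ≤
      4 * ((Fintype.card X : ℝ) * (Fintype.card X * m)) := by
    have h5 : (Fintype.card X : ℝ) * ∑ r, ν r * (spp r : ℝ) ≤
        4 * ∑ r, ν r * ((∑ u, (nt r u).card : ℕ) : ℝ) := by
      rw [Finset.mul_sum, Finset.mul_sum]
      refine Finset.sum_le_sum fun r _ => ?_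
      have h6 : ((Fintype.card X * spp r : ℕ) : ℝ) ≤ ((4 * ∑ u, (nt r u).card : ℕ) : ℝ) := by
        exact_mod_cast pairs_ge hN
      rw [Nat.cast_mul, Nat.cast_mul] at h6
      have h7 := mul_le_mul_of_nonneg_left h6 (hν r)
      push_cast at h7 ⊢
      linarith
    refine h5.trans ?_
    rw [h2]
    refine mul_le_mul_of_nonneg_left ?_ (by norm_num)
    refine (Finset.sum_le_sum fun u _ => Finset.sum_le_sum fun z _ => h3 u z).trans ?_
    simp [Finset.sum_const, nsmul_eq_mul]
  have hX0 : (0 : ℝ) < Fintype.card X := by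
    have : 0 < Fintype.card X := by omega
    exact_mod_cast this
  have h5 : ∑ r, ν r * (spp r : ℝ) ≤ 4 * (Fintype.card X * m) := by
    have : (Fintype.card X : ℝ) * ∑ r, ν r * (spp r : ℝ) ≤
        (Fintype.card X : ℝ) * (4 * (Fintype.card X * m)) := by linarith
    exact le_of_mul_le_mul_left this hX0
  -- the colours
  have hKY : K ≤ Y.card := by omega
  have h6 : Fintype.card X ≤ 4 * K * (Y.card / K) := by
    have e1 := Nat.div_add_mod Y.card K
    have e2 := Nat.mod_lt Y.card (show 0 < K by omega)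
    have e3 : 1 ≤ Y.card / K := (Nat.one_le_div_iff (by omega)).2 hKY
    have e4 : K ≤ K * (Y.card / K) := Nat.le_mul_of_pos_right K e3
    rw [hY, mul_assoc]
    omega
  have h7 : ∀ w, m ≤ (4 * K : ℝ) ^ K * Sw ν (fun r => Dst r Y (p₀ w) (p₁ w)) := by
    intro w
    have := cover hc hν (hp₀ w) (hp₁ w) (L := Y.card / K) (M := 4 * K)
      (Nat.mul_div_le _ _) h6
    rw [hm, Sw_pair hc (hp w₀) (hp w)]
    push_cast at this
    exact this
  have h8 : (Fintype.card W : ℝ) * m ≤
      (4 * K : ℝ) ^ K * ∑ w, Sw ν (fun r => Dst r Y (p₀ w) (p₁ w)) := by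
    rw [Finset.mul_sum, ← nsmul_eq_mul, ← Finset.card_univ, ← Finset.sum_const]
    exact Finset.sum_le_sum fun w _ => h7 w
  have h9 : (Fintype.card X : ℝ) = 4 * Fintype.card W := by
    have : Fintype.card X = 4 * Fintype.card W := by omega
    exact_mod_cast this
  rw [h1]
  rw [h9] at h5
  nlinarith

end Pool.Agent.TH442.RS
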