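import Mathlib
import Pool.Agent.H620R2.Gauge.Defs

/-! Relations on the strings of every length, and their oracles. -/

set_option autoImplicit false

namespace Pool.Agent.TH442.RS

open Pool.Agent.H620R2.Gauge

/-- A relation with `K` places on the strings of length `n`. -/
def Str (K n : ℕ) : Type := (Fin K → Fin n → Bool) → Bool

/-- A sequence of relations with `K` places: one on the strings of length `n`, for every `n`. -/
abbrev Strs (K : ℕ) : Type := (n : ℕ) → Str K n

/-- The relation that `r` becomes if the strings are renamed with the permutation `τ`: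
`(x₁, …, x_K)` is in it if and only if `(τ x₁, …, τ x_K)` is in `r`. -/
def ren {K n : ℕ} (τ : Equiv.Perm (Fin n → Bool)) (r : Str K n) : Str K n :=
  fun x => r (fun i => τ (x i))

/-- The oracle of the relations: the answer to a question of length `K n` tells whether the `K`
strings of length `n` of which it consists are in the relation; the answer is `false` if the
length of the question is not divisible by `K`. -/
def ora {K : ℕ} (R : Strs K) : Oracle := fun q =>
  if q.length % K = 0 then
    R (q.length / K) (fun i j => q.getD (i * (q.length / K) + j) false)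
  else false

/-- The least number of strings such that the relation does not change under the permutations
that fix all of them. -/
noncomputable def supp {K n : ℕ} (r : Str K n) : ℕ :=
  sInf {k | ∃ S : Finset (Fin n → Bool), S.card = k ∧
    ∀ τ : Equiv.Perm (Fin n → Bool), (∀ x ∈ S, τ x = x) → ren τ r = r}

instance (K n : ℕ) : MeasurableSpace (Str K n) := ⊤

/-- The distribution of independent random relations with the distributions `μ n`. -/
noncomputable def law {K : ℕ} (μ : (n : ℕ) → PMF (Str K n)) : MeasureTheory.Measure (Strs K) :=
  MeasureTheory.Measure.infinitePi fun n => (μ n).toMeasure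

/-! ### Tuples -/

/-- a tuple of `K` strings of length `n` -/
def Tup (K n : ℕ) (t : List (List Bool)) : Prop := t.length = K ∧ ∀ b ∈ t, b.length = n

/-- the string as a function -/
def fn (n : ℕ) (b : List Bool) : Fin n → Bool := fun j => b.getD j false

theorem ofFn_fn {n : ℕ} {b : List Bool} (h : b.length = n) : List.ofFn (fn n b) = b := by
  subst h
  apply List.ext_getElem
  · simp
  · intro i h1 h2
    simp [fn, List.getD_eq_getElem?_getD, List.getElem?_eq_getElem h2]

theorem fn_ofFn {n : ℕ} (x : Fin n → Bool) : fn n (List.ofFn x) = x := by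
  funext j
  simp [fn, List.getD_eq_getElem?_getD]

theorem length_flatten {K n : ℕ} {t : List (List Bool)} (ht : Tup K n t) :
    t.flatten.length = K * n := by
  obtain ⟨rfl, h⟩ := ht
  induction t with
  | nil => simp
  | cons b t ih =>
    rw [List.flatten_cons, List.length_append, ih (fun c hc => h c (by simp [hc])),
      h b (by simp), List.length_cons]
    ring

theorem getD_flatten {n : ℕ} : ∀ (t : List (List Bool)), (∀ b ∈ t, b.length = n) →
    ∀ i j : ℕ, i < t.length → j < n →
      t.flatten.getD (i * n + j) false = (t.getD i []).getD j false := by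
  intro t
  induction t with
  | nil => intro _ i j hi; simp at hi
  | cons b t ih =>
    intro h i j hi hj
    have hb : b.length = n := h b (by simp)
    rw [List.flatten_cons]
    rcases i with _ | i
    · rw [zero_mul, zero_add, List.getD_append _ _ _ _ (by omega)]
      simp
    · rw [List.getD_append_right _ _ _ _ (by rw [hb]; nlinarith),
        show (i + 1) * n + j - b.length = i * n + j by rw [hb, add_mul]; omega,
        ih (fun c hc => h c (by simp [hc])) i j (by simpa using hi) hj]
      simp

variable {K : ℕ}

theorem ora_flatten (hK : 1 ≤ K) (R : Strs K) {n : ℕ} {t : List (List Bool)} (ht : Tup K n t) :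
    ora R t.flatten = R n (fun i => fn n (t.getD i [])) := by
  have hl := length_flatten ht
  unfold ora
  rw [hl, Nat.mul_mod_right, if_pos rfl]
  have key : ∀ m, m = n → R m (fun i j => t.flatten.getD (i * m + j) false) =
      R n (fun i => fn n (t.getD i [])) := by
    rintro m rfl
    congr 1
    funext i j
    exact getD_flatten t ht.2 i j (by rw [ht.1]; exact i.2) j.2
  exact key _ (Nat.mul_div_cancel_left n (by omega))

theorem exists_tup : ∀ (K n : ℕ) (q : List Bool), q.length = K * n →
    ∃ t, Tup K n t ∧ t.flatten = q := by
  intro K
  induction K with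
  | zero =>
    intro n q hq
    have h : q = [] := List.eq_nil_of_length_eq_zero (by simpa using hq)
    exact ⟨[], ⟨rfl, by simp⟩, by simp [h]⟩
  | succ K ih =>
    intro n q hq
    obtain ⟨t, ht, h⟩ := ih n (q.drop n) (by rw [List.length_drop, hq, add_mul]; omega)
    refine ⟨q.take n :: t, ⟨by simp [ht.1], ?_⟩, ?_⟩
    · intro b hb
      rw [List.mem_cons] at hb
      rcases hb with rfl | hb
      · rw [List.length_take, hq, add_mul]; omega
      · exact ht.2 b hb
    · rw [List.flatten_cons, h, List.take_append_drop]

theorem tup_of_ora (R : Strs K) {q : List Bool} (h : ora R q = true) :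
    ∃ n t, Tup K n t ∧ t.flatten = q := by
  unfold ora at h
  split_ifs at h with h1
  obtain ⟨n, hn⟩ := Nat.dvd_of_mod_eq_zero h1
  obtain ⟨t, ht, h2⟩ := exists_tup K n q hn
  exact ⟨n, t, ht, h2⟩

/-- the tuple as a list -/
def lst {n : ℕ} (x : Fin K → Fin n → Bool) : List (List Bool) :=
  List.ofFn fun i => List.ofFn (x i)

theorem tup_lst {n : ℕ} (x : Fin K → Fin n → Bool) : Tup K n (lst x) := by
  refine ⟨by simp [lst], fun b hb => ?_⟩
  unfold lst at hb
  rw [List.mem_ofFn] at hb
  obtain ⟨i, rfl⟩ := hb
  simp

theorem getD_lst {n : ℕ} (x : Fin K → Fin n → Bool) (i : Fin K) :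
    (lst x).getD i [] = List.ofFn (x i) := by
  simp [lst, List.getD_eq_getElem?_getD]

theorem ora_lst (hK : 1 ≤ K) (R : Strs K) {n : ℕ} (x : Fin K → Fin n → Bool) :
    ora R (lst x).flatten = R n x := by
  rw [ora_flatten hK R (tup_lst x)]
  congr 1
  funext i
  rw [getD_lst, fn_ofFn]

theorem strs_ext (hK : 1 ≤ K) {R R' : Strs K} (h : ora R = ora R') : R = R' := by
  funext n
  funext x
  rw [← ora_lst hK R x, h, ora_lst hK]

theorem ora_congr (hK : 1 ≤ K) {R R' : Strs K} {n : ℕ} (h : R n = R' n) {t : List (List Bool)}
    (ht : Tup K n t) : ora R t.flatten = ora R' t.flatten := by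
  rw [ora_flatten hK R ht, ora_flatten hK R' ht, h]

end Pool.Agent.TH442.RS
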