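import Pool.Agent.TH442.RS.Flip
import Pool.Agent.TH442.RP.Dfn

/-! Definability. -/

set_option autoImplicit false

namespace Pool.Agent.TH442.RS

open Pool.Agent.NPC Pool.Agent.H620R2.Gauge Pool.Agent.H591R3.PHG Pool.Agent.H622R2
  Pool.Agent.W900.IE
open Pool.Agent.TH442.RP (Perms app P flip length_flip app_P)

variable {K : ℕ}

theorem sz_tup {n : ℕ} {t : List (List Bool)} (ht : Tup K n t) : sz t ≤ K * (4 * n + 2) + 1 := by
  have h := sz_le_length_mul t (4 * n + 1) (by
    intro a ha
    have := sz_listBool_le a
    rw [ht.2 a ha] at this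
    exact this)
  rw [ht.1] at h
  exact h

theorem tl_tup {α : Type} [TEnc α] [TDec α] (A : Oracle) {n : α → ℕ} {t : α → List (List Bool)}
    (hn : Poly n) (ht : Poly t) : TL A 0 (fun a => Tup K (n a) (t a)) := by
  have h1 : Poly (fun a => decide ((t a).length = K) && (t a).all
      (fun b => decide (b.length = n a))) :=
    Poly.and (Poly.decide_eq (Poly.length ht) (NPC.Poly.const K))
      (Poly.all (p := fun a b => decide (b.length = n a)) ht
        (Poly.decide_eq (Poly.length (Poly.snd Poly.id)) (hn.comp (Poly.fst Poly.id))))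
  refine (TL.poly A h1).congr fun a => ?_
  unfold Tup
  simp

theorem poly_sb (e : Bool) : Poly (fun v : List Bool × List (List Bool) =>
    (v.2.map (sb (true :: e :: v.1))).flatten) := by
  refine Poly.flatten (NPC.Poly.map (F := fun v b => sb (true :: e :: v.1) b) (Poly.snd Poly.id) ?_)
  exact Poly.ite (Poly.decide_eq (Poly.head? (Poly.snd Poly.id)) (NPC.Poly.const (some false)))
    (Poly.snd Poly.id) (Poly.cons (NPC.Poly.const true) (Poly.cons (NPC.Poly.const e)
      (Poly.fst (Poly.fst Poly.id))))

theorem tl_val {A : Oracle} {d : ℕ} {R : Strs K} (h : TL A d (fun q : List Bool => ora R q = true))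
    (e : Bool) : TL A d (fun v : List Bool × List (List Bool) => val R v.1 e v.2 = true) :=
  h.comp (poly_sb e)

theorem poly_len2 {α : Type} [TEnc α] {w : α → List Bool} (hw : Poly w) :
    Poly (fun a => (w a).length + 2) := Poly.add (Poly.length hw) (NPC.Poly.const 2)

theorem tl_dst {A : Oracle} {d : ℕ} {R : Strs K}
    (h : TL A d (fun q : List Bool => ora R q = true)) :
    TL A (4 * d) (fun v : List Bool × List (List Bool) => dst R v.1 v.2) := by
  have h1 := tl_tup (K := K) A (poly_len2 (Poly.fst (Poly.id (α := List Bool × List (List Bool)))))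
    (Poly.snd Poly.id)
  refine ((h1.and ((tl_val h false).iff (tl_val h true)).not).mono (by omega)).congr fun v => ?_
  unfold dst
  refine and_congr_right fun _ => ?_
  rw [ne_eq, Bool.eq_iff_iff]

theorem upoly_bd (K : ℕ) : UPoly (fun w : List Bool => K * (4 * (w.length + 2) + 2) + 1) :=
  UPoly.add (UPoly.mul (UPoly.const K) (UPoly.add (UPoly.mul (UPoly.const 4)
    (UPoly.add (UPoly.length Poly.id) (UPoly.const 2))) (UPoly.const 2))) (UPoly.const 1)

theorem tl_fst {A : Oracle} {d : ℕ} {R : Strs K}
    (h : TL A d (fun q : List Bool => ora R q = true)) :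
    TL A (8 * d + 1) (fun v : List Bool × List (List Bool) => fst R v.1 v.2) := by
  have h1 := tl_dst h
  have h2 : TL A (4 * d) (fun v : (List Bool × List (List Bool)) × List (List Bool) =>
      dst R v.1.1 v.2) :=
    TL.comp h1 (f := fun v : (List Bool × List (List Bool)) × List (List Bool) => (v.1.1, v.2))
      (Poly.pair (Poly.fst (Poly.fst Poly.id)) (Poly.snd Poly.id))
  have h3 : TL A 0 (fun v : (List Bool × List (List Bool)) × List (List Bool) =>
      valB v.1.2.flatten ≤ valB v.2.flatten) :=
    TL.dec A (Poly.decide_le (Poly.valBits (Poly.flatten (Poly.snd (Poly.fst Poly.id))))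
      (Poly.valBits (Poly.flatten (Poly.snd Poly.id))))
  have h4 := (h2.imp h3).all
    (m := fun v : List Bool × List (List Bool) => K * (4 * (v.1.length + 2) + 2) + 1)
    ((upoly_bd K).comp (Poly.fst Poly.id))
  refine ((h1.and h4).mono (by omega)).congr fun v => ?_
  unfold fst
  refine and_congr_right fun _ => ?_
  constructor
  · intro h5 t _ ht
    exact h5 t ht
  · intro h5 t ht
    exact h5 t (sz_tup ht.1) ht

theorem tl_Rb {A : Oracle} {d : ℕ} {R : Strs K}
    (h : TL A d (fun q : List Bool => ora R q = true)) :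
    TL A (9 * d + 2) (fun w : List Bool => Rb R w = true) := by
  have h1 := ((tl_fst h).and (tl_val h true)).ex
    (m := fun w : List Bool => K * (4 * (w.length + 2) + 2) + 1) (upoly_bd K)
  refine (h1.mono (by omega)).congr fun w => ?_
  rw [Rb_iff]
  constructor
  · rintro ⟨t, h2, h3⟩
    exact ⟨t, sz_tup h2.1.1, h2, h3⟩
  · rintro ⟨t, _, h2, h3⟩
    exact ⟨t, h2, h3⟩

theorem tl_ac (hK : 1 ≤ K) {A c : Oracle} {d e : ℕ} {R : Strs K}
    (h : TL A d (fun w : List Bool => c w = true))
    (h' : TL A e (fun q : List Bool => ora R q = true)) :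
    TL A (2 * d + e + 2) (fun q : List Bool => ora (ac (P c) R) q = true) := by
  -- the variables: `(q, ((l, t), t'))`
  have h1 : TL A 0 (fun v : List Bool × ((List Bool × List (List Bool)) × List (List Bool)) =>
      Tup K v.2.1.1.length v.2.1.2) :=
    tl_tup A (Poly.length (Poly.fst (Poly.fst (Poly.snd Poly.id))))
      (Poly.snd (Poly.fst (Poly.snd Poly.id)))
  have h2 : TL A 0 (fun v : List Bool × ((List Bool × List (List Bool)) × List (List Bool)) =>
      v.2.1.2.flatten = v.1) :=
    TL.dec A (Poly.decide_eq (Poly.flatten (Poly.snd (Poly.fst (Poly.snd Poly.id))))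
      (Poly.fst Poly.id))
  have h3 : TL A 0 (fun v : List Bool × ((List Bool × List (List Bool)) × List (List Bool)) =>
      v.2.2.length = K) :=
    TL.dec A (Poly.decide_eq (Poly.length (Poly.snd (Poly.snd Poly.id))) (NPC.Poly.const K))
  have h4 : TL A (2 * d) (fun u : (List Bool ×
      ((List Bool × List (List Bool)) × List (List Bool))) × ℕ =>
      u.1.2.2.getD u.2 [] = app (P c) (u.1.2.1.2.getD u.2 [])) :=
    TL.comp (RP.gd_P h) (f := fun u : (List Bool ×
      ((List Bool × List (List Bool)) × List (List Bool))) × ℕ =>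
      (u.1.2.1.2.getD u.2 [], u.1.2.2.getD u.2 []))
      (Poly.pair (Poly.getD (Poly.snd (Poly.fst (Poly.snd (Poly.fst Poly.id)))) (Poly.snd Poly.id)
        (NPC.Poly.const [])) (Poly.getD (Poly.snd (Poly.snd (Poly.fst Poly.id)))
        (Poly.snd Poly.id) (NPC.Poly.const [])))
  have h5 := h4.allLt (m := fun _ => K) (UPoly.const K)
  have h6 : TL A e (fun v : List Bool × ((List Bool × List (List Bool)) × List (List Bool)) =>
      ora R v.2.2.flatten = true) := h'.comp (Poly.flatten (Poly.snd (Poly.snd Poly.id)))
  have h7 := (h1.and (h2.and (h3.and (h5.and h6)))).ex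
    (m := fun q : List Bool => (4 * q.length + 1) + 2 * (K * (4 * q.length + 2) + 1) + 2)
    (UPoly.add (UPoly.add (UPoly.add (UPoly.mul (UPoly.const 4) (UPoly.length Poly.id))
      (UPoly.const 1)) (UPoly.mul (UPoly.const 2) (UPoly.add (UPoly.mul (UPoly.const K)
        (UPoly.add (UPoly.mul (UPoly.const 4) (UPoly.length Poly.id)) (UPoly.const 2)))
        (UPoly.const 1)))) (UPoly.const 2))
  refine (h7.mono (by omega)).congr fun q => ?_
  constructor
  · intro hq
    obtain ⟨n, t, ht, rfl⟩ := tup_of_ora _ hq
    rw [ora_ac hK c R ht] at hq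
    have hlen : n ≤ t.flatten.length := by
      rw [length_flatten ht]
      nlinarith
    refine ⟨((List.replicate n false, t), t.map (flip c)), ?_, ?_, rfl, ?_, ?_, hq⟩
    · rw [sz_pair, sz_pair]
      have e1 := sz_listBool_le (List.replicate n false)
      have e2 := sz_tup ht
      have e3 := sz_tup (tup_map ht (f := flip c) fun b hb => by rw [length_flip, hb])
      rw [List.length_replicate] at e1
      have e4 : K * (4 * n + 2) ≤ K * (4 * t.flatten.length + 2) := Nat.mul_le_mul_left _ (by omega)
      omega
    · rw [List.length_replicate]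
      exact ht
    · rw [List.length_map, ht.1]
    · intro i hi
      dsimp only
      rw [app_P, List.getD_eq_getElem?_getD, List.getD_eq_getElem?_getD, List.getElem?_map,
        List.getElem?_eq_getElem (by rw [ht.1]; exact hi)]
      rfl
  · rintro ⟨⟨⟨l, t⟩, t'⟩, _, h8, h9, h10, h11, h12⟩
    dsimp only at h8 h9 h10 h11 h12
    have h13 : t' = t.map (flip c) := by
      apply List.ext_getElem
      · rw [List.length_map, h10, h8.1]
      · intro i hi hi'
        have h14 := h11 i (by omega)
        rw [app_P, List.getD_eq_getElem?_getD, List.getD_eq_getElem?_getD,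
          List.getElem?_eq_getElem hi, List.getElem?_eq_getElem (by rw [h8.1]; omega)] at h14
        simpa using h14
    rw [← h9, ora_ac hK c R h8, ← h13, h12]

/-- The random bits are definable from the relations. -/
theorem tl_xor (R : Strs K) :
    TL (ora R) 2 (fun q : List Bool => (oA R q ^^ oB R q) = true) := by
  have h2 : TL (ora R) 2 (fun q : List Bool => Rb R q.tail = true) :=
    TL.comp (tl_Rb (TH680.IE.tl_query (ora R))) (Poly.tail Poly.id)
  have h3 : TL (ora R) 0 (fun q : List Bool => q.head? = some true) :=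
    TL.dec _ (Poly.decide_eq (Poly.head? Poly.id) (NPC.Poly.const _))
  refine ((h3.and h2).mono (by omega)).congr fun q => ?_
  rcases q with _ | ⟨_ | _, q⟩
  · simp [oA, oB]
  · simp [oA, oB]
  · simp [oA, oB]

/-- The relations are definable from the oracle with the random bits. -/
theorem tl_back (hK : 1 ≤ K) (R : Strs K) :
    TL (oA R) 2 (fun q : List Bool => ora R q = true) := by
  have h1 : TL (oA R) 0 (fun q : List Bool => ora (rho R) q = true) :=
    TL.query (oA R) (q := fun q : List Bool => false :: q)
      (Poly.cons (NPC.Poly.const false) Poly.id)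
  have h2 : TL (oA R) 0 (fun w : List Bool => Rb R w = true) :=
    TL.query (oA R) (q := fun w : List Bool => true :: w)
      (Poly.cons (NPC.Poly.const true) Poly.id)
  have h3 := tl_ac hK h2 h1
  rw [rho_back] at h3
  exact TL.mono (by omega) h3

/-- **The hierarchy is infinite if the hard languages are hard.** -/
theorem infinite_of_hard (hK : 1 ≤ K) {R : Strs K}
    (h : ∀ k, ¬ IsSig (oA R) k (lang k (DO k (fun q => (oA R q ^^ oB R q))))) :
    InfinitePH (ora R) := by
  by_contra hcon
  obtain ⟨J, hJ⟩ := not_infinite_iff.1 hcon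
  have h1 : ∀ k, Lev (ora R) J
      (fun x => x ∈ lang k (DO k (fun q => (oA R q ^^ oB R q)))) := fun k =>
    hJ _ _ (Lev.derived (tl_DO (tl_xor R) k)
      (lev_of_isSig (lang_sig (DO k (fun q => (oA R q ^^ oB R q))) k)))
  have h2 := fun k => (Lev.derived (tl_back hK R) (h1 k)).isSig
  exact h _ (h2 _)

end Pool.Agent.TH442.RS
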