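import Pool.Agent.TH442.RS.Law
import Pool.Agent.TH442.RS.Count
import Pool.Agent.TH442.RP.Many

/-! Large supports give many pairs. -/

set_option autoImplicit false

namespace Pool.Agent.TH442.RS

open MeasureTheory ProbabilityTheory Pool.Agent.H620R2.Gauge
open Pool.Agent.TH442.RP (Y0 pt ofFn_pt pt_notMem pt_inj card_Y0)

variable {K : ℕ}

open Classical in
/-- the number of pairs that can be distinguished -/
noncomputable def G (m : ℕ) (r : Str K (m + 2)) : ℕ :=
  (Finset.univ.filter (fun w : Fin m → Bool => Dst r (Y0 m) (pt false w) (pt true w))).card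

theorem lst_fn {n : ℕ} {t : List (List Bool)} (ht : Tup K n t) :
    lst (fun i : Fin K => fn n (t.getD i [])) = t := by
  apply List.ext_getElem
  · rw [(tup_lst _).1, ht.1]
  · intro i h1 h2
    have h3 : t.getD i [] = t[i] := by
      rw [List.getD_eq_getElem?_getD, List.getElem?_eq_getElem h2]
      rfl
    have h4 : (lst (fun i : Fin K => fn n (t.getD i [])))[i] = List.ofFn (fn n (t.getD i [])) := by
      simp [lst]
    rw [h4, h3, ofFn_fn (ht.2 _ (List.getElem_mem h2))]

theorem map_lst {m : ℕ} (w : Fin m → Bool) (e : Bool) (a : Fin K → Fin (m + 2) → Bool) :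
    (lst a).map (sb (true :: e :: List.ofFn w)) = lst (sub (Y0 m) (pt e w) a) := by
  unfold lst
  rw [List.map_ofFn]
  congr 1
  funext i
  show sb (true :: e :: List.ofFn w) (List.ofFn (a i)) = List.ofFn (sub (Y0 m) (pt e w) a i)
  unfold sb sub
  have h1 : (List.ofFn (a i)).head? = some false ↔ a i ∈ Y0 m := by
    unfold Y0
    simp [List.ofFn_succ]
  by_cases h : a i ∈ Y0 m
  · rw [if_pos (h1.2 h), if_pos h]
  · rw [if_neg (fun h' => h (h1.1 h')), if_neg h, ofFn_pt]

theorem val_lst (hK : 1 ≤ K) (R : Strs K) {m : ℕ} (w : Fin m → Bool) (e : Bool)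
    (a : Fin K → Fin (m + 2) → Bool) :
    val R (List.ofFn w) e (lst a) = R (m + 2) (sub (Y0 m) (pt e w) a) := by
  unfold val
  rw [map_lst, ora_lst hK]

theorem T_iff_Dst (hK : 1 ≤ K) (R : Strs K) {m : ℕ} (w : Fin m → Bool) :
    T R (List.ofFn w) = true ↔ Dst (R (m + 2)) (Y0 m) (pt false w) (pt true w) := by
  rw [T_iff]
  unfold dst
  rw [List.length_ofFn]
  constructor
  · rintro ⟨t, ht, h⟩
    rw [← lst_fn ht, val_lst hK, val_lst hK] at h
    exact ⟨_, h⟩
  · rintro ⟨a, ha⟩
    refine ⟨lst a, tup_lst a, ?_⟩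
    rw [val_lst hK, val_lst hK]
    exact ha

theorem cT_eq (hK : 1 ≤ K) (R : Strs K) (m : ℕ) : cT R m = G m (R (m + 2)) := by
  classical
  unfold cT G
  congr 1
  apply Finset.filter_congr
  intro w _
  exact T_iff_Dst hK R w

theorem supp_eq {n : ℕ} (r : Str K n) : supp r = spp (X := Fin n → Bool) r := rfl

theorem spp_rn_le {X : Type} [DecidableEq X] [Fintype X] (τ : Equiv.Perm X)
    (r : (Fin K → X) → Bool) : spp (rn τ r) ≤ spp r := by
  obtain ⟨S, hS, hS'⟩ := exists_sup r
  rw [← hS]
  refine (spp_le (S := S.image τ.symm) fun σ hσ => ?_).trans Finset.card_image_le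
  have h1 := hS' (τ * σ * τ⁻¹) fun x hx => by
    have h2 := hσ (τ.symm x) (Finset.mem_image_of_mem _ hx)
    show τ (σ (τ.symm x)) = x
    rw [h2, Equiv.apply_symm_apply]
  rw [rn_rn]
  have h3 : rn (τ * σ) r = rn τ (rn (τ * σ * τ⁻¹) r) := by
    rw [rn_rn, inv_mul_cancel_right]
  rw [h3, h1]

theorem spp_rn {X : Type} [DecidableEq X] [Fintype X] (τ : Equiv.Perm X)
    (r : (Fin K → X) → Bool) : spp (rn τ r) = spp r := by
  refine le_antisymm (spp_rn_le τ r) ?_
  have h1 := spp_rn_le τ⁻¹ (rn τ r)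
  rw [rn_rn, mul_inv_cancel, rn_one] at h1
  exact h1

theorem supp_ren {n : ℕ} (τ : Equiv.Perm (Fin n → Bool)) (r : Str K n) :
    supp (ren τ r) = supp r := spp_rn τ r

theorem G_le (m : ℕ) (r : Str K (m + 2)) : G m r ≤ supp r := by
  classical
  obtain ⟨S, hS, hS'⟩ := exists_sup (X := Fin (m + 2) → Bool) r
  rw [supp_eq, ← hS]
  unfold G
  refine Finset.card_le_card_of_injOn
    (fun w => if pt false w ∈ S then pt false w else pt true w) ?_ ?_
  · intro w hw
    simp only [Finset.coe_filter, Finset.mem_univ, true_and, Set.mem_ofPred_eq] at hw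
    rw [Finset.mem_coe]
    have h1 := sup_meets hS' (pt_notMem false w) (pt_notMem true w) hw
    dsimp only
    split_ifs with h
    · exact h
    · tauto
  · intro w _ w' _ h
    dsimp only at h
    split_ifs at h
    · exact (pt_inj h).2
    · exact (pt_inj h).2
    · exact (pt_inj h).2
    · exact (pt_inj h).2

/-- the constant -/
def cst (K : ℕ) : ℕ := 32 * (4 * K) ^ K

theorem cst_pos {K : ℕ} (hK : 1 ≤ K) : 0 < cst K := by
  unfold cst
  positivity

open Classical in
/-- **Reverse Markov.** -/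
theorem prob_real (hK : 1 ≤ K) {m : ℕ} (hm : K + 1 ≤ m) (q : Str K (m + 2) → ℝ)
    (hq : ∀ r, 0 ≤ q r) (hc : ∀ τ r, q (ren τ r) = q r) {s : ℕ} (hs : 1 ≤ s) :
    (∑ r, if s ≤ supp r then q r else 0) ≤
      cst K * ∑ r, if s ≤ cst K * G m r then q r else 0 := by
  set ν : Str K (m + 2) → ℝ := fun r =>
    if s ≤ supp r then q r / supp r else 0 with hν
  have hν0 : ∀ r, 0 ≤ ν r := by
    intro r
    rw [hν]
    dsimp only
    split_ifs
    · exact div_nonneg (hq r) (Nat.cast_nonneg _)
    · exact le_rfl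
  have hνc : ∀ (τ : Equiv.Perm (Fin (m + 2) → Bool)) (r : Str K (m + 2)),
      ν (ren τ r) = ν r := by
    intro τ r
    rw [hν]
    dsimp only
    rw [supp_ren, hc]
  have hW : (Y0 m).card = 2 * Fintype.card (Fin m → Bool) := by
    rw [card_Y0]
    simp [pow_succ]
    ring
  have hX : Fintype.card (Fin (m + 2) → Bool) = 2 * (Y0 m).card := by
    rw [card_Y0]
    simp [pow_succ]
    ring
  have hN : 2 * K + 8 ≤ Fintype.card (Fin (m + 2) → Bool) := by
    rw [hX, card_Y0]
    have h1 : K + 1 ≤ 2 ^ K := Nat.lt_two_pow_self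
    calc 2 * K + 8 ≤ 8 * (K + 1) := by omega
      _ ≤ 8 * 2 ^ K := Nat.mul_le_mul_left _ h1
      _ = 2 * 2 ^ (K + 2) := by ring
      _ ≤ 2 * 2 ^ (m + 1) := Nat.mul_le_mul_left _ (Nat.pow_le_pow_right (by norm_num) (by omega))
  have h1 := count (X := Fin (m + 2) → Bool) (ν := ν) (Y := Y0 m) (p₀ := pt false)
    (p₁ := pt true) hK hνc hν0 (fun w => pt_notMem false w) (fun w => pt_notMem true w)
    (fun w h => by simpa using (pt_inj h).1) hX hN hW
  have h2 : (∑ r : (Fin K → Fin (m + 2) → Bool) → Bool, ν r *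
      (spp (X := Fin (m + 2) → Bool) r : ℝ)) =
      ∑ r : Str K (m + 2), if s ≤ supp r then q r else 0 := by
    refine Finset.sum_congr rfl fun r _ => ?_
    rw [hν]
    dsimp only
    have h6 : (spp (X := Fin (m + 2) → Bool) r : ℝ) = supp (K := K) (n := m + 2) r := rfl
    rw [h6]
    split_ifs with h
    · have h5 : (supp (K := K) (n := m + 2) r : ℝ) ≠ 0 := by
        have : 0 < supp (K := K) (n := m + 2) r := by omega
        exact_mod_cast this.ne'
      field_simp
    · rw [zero_mul]
  have hc0 : (0 : ℝ) < cst K := by exact_mod_cast cst_pos hK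
  have h3 : (∑ r : (Fin K → Fin (m + 2) → Bool) → Bool, ν r *
      ((Finset.univ.filter (fun w : Fin m → Bool =>
        Dst r (Y0 m) (pt false w) (pt true w))).card : ℝ)) ≤
      (1 / cst K) * (∑ r : Str K (m + 2), if s ≤ supp r then q r else 0) +
        ∑ r : Str K (m + 2), if s ≤ cst K * G m r then q r else 0 := by
    rw [Finset.mul_sum, ← Finset.sum_add_distrib]
    refine Finset.sum_le_sum fun r _ => ?_
    have h6 : ((Finset.univ.filter (fun w : Fin m → Bool =>
        Dst r (Y0 m) (pt false w) (pt true w))).card : ℝ) = G (K := K) m r := by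
      unfold G
      congr!
    rw [h6, hν]
    dsimp only
    have hqσ := hq r
    split_ifs with h h' h'
    · have h5 : (0 : ℝ) < supp (K := K) (n := m + 2) r := by
        have : 0 < supp (K := K) (n := m + 2) r := by omega
        exact_mod_cast this
      have h7 : (G (K := K) m r : ℝ) ≤ supp (K := K) (n := m + 2) r := by
        exact_mod_cast G_le m r
      have h8 : q r / supp (K := K) (n := m + 2) r * G (K := K) m r ≤ q r := by
        rw [div_mul_eq_mul_div, div_le_iff₀ h5]
        exact mul_le_mul_of_nonneg_left h7 hqσ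
      have h9 : 0 ≤ 1 / (cst K : ℝ) * q r := by positivity
      linarith
    · have h5 : (0 : ℝ) < supp (K := K) (n := m + 2) r := by
        have : 0 < supp (K := K) (n := m + 2) r := by omega
        exact_mod_cast this
      have h7 : (cst K : ℝ) * (G (K := K) m r : ℝ) ≤ supp (K := K) (n := m + 2) r := by
        have : cst K * G (K := K) m r ≤ supp (K := K) (n := m + 2) r := by omega
        exact_mod_cast this
      have h8 : q r / supp (K := K) (n := m + 2) r * G (K := K) m r ≤ 1 / cst K * q r := by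
        rw [div_mul_eq_mul_div, div_le_iff₀ h5, one_div, mul_assoc, inv_mul_eq_div,
          le_div_iff₀ hc0]
        nlinarith
      linarith
    · rw [zero_mul, mul_zero, zero_add]
      exact hqσ
    · simp
  have h5 := h1.trans (mul_le_mul_of_nonneg_left h3
    (by positivity : (0 : ℝ) ≤ 16 * (4 * K : ℝ) ^ K))
  have h6 : (16 * (4 * K : ℝ) ^ K) = cst K / 2 := by
    unfold cst
    push_cast
    ring
  rw [h2, h6] at h5
  set A := ∑ r : Str K (m + 2), if s ≤ supp r then q r else 0
  set B := ∑ r : Str K (m + 2), if s ≤ cst K * G m r then q r else 0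
  have h7 : (cst K : ℝ) / 2 * (1 / cst K * A + B) = A / 2 + cst K / 2 * B := by
    field_simp
  rw [h7] at h5
  linarith

variable {μ : (n : ℕ) → PMF (Str K n)}

theorem toMeasure_real {n : ℕ} (Q : Str K n → Prop) [DecidablePred Q] :
    (μ n).toMeasure {r | Q r} = ENNReal.ofReal (∑ r, if Q r then (μ n r).toReal else 0) := by
  rw [PMF.toMeasure_apply_fintype, ENNReal.ofReal_sum_of_nonneg]
  · refine Finset.sum_congr rfl fun r _ => ?_
    by_cases h : Q r
    · rw [if_pos h, Set.indicator_of_mem (show r ∈ {r | Q r} from h),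
        ENNReal.ofReal_toReal (PMF.apply_ne_top _ _)]
    · rw [if_neg h, Set.indicator_of_notMem (show r ∉ {r | Q r} from h)]
      simp
  · intro r _
    split_ifs
    · exact ENNReal.toReal_nonneg
    · exact le_rfl

theorem prob (hK : 1 ≤ K) (hμ : Inv μ) {m : ℕ} (hm : K + 1 ≤ m) {s : ℕ} (hs : 1 ≤ s) :
    (μ (m + 2)).toMeasure {r | s ≤ supp r} ≤
      cst K * (μ (m + 2)).toMeasure {r | s ≤ cst K * G m r} := by
  classical
  rw [toMeasure_real, toMeasure_real, show (cst K : ENNReal) = ENNReal.ofReal (cst K) by simp,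
    ← ENNReal.ofReal_mul (by positivity)]
  apply ENNReal.ofReal_le_ofReal
  exact prob_real hK hm (fun r => (μ (m + 2) r).toReal) (fun r => ENNReal.toReal_nonneg)
    (fun τ r => by rw [hμ]) hs

end Pool.Agent.TH442.RS
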