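import Pool.Agent.TH442.RS.Dfn
import Pool.Agent.TH442.RS.Many

/-! Small supports. -/

set_option autoImplicit false

namespace Pool.Agent.TH442.RS

open Pool.Agent.NPC Pool.Agent.H620R2.Gauge Pool.Agent.H591R3.PHG Pool.Agent.H622R2
  Pool.Agent.W900.IE

/-- An oracle that is definable from a sparse oracle. -/
theorem infinite_iff_of_tl {A D : Oracle} (hD : SparseS D) {d : ℕ}
    (h : TL D d (fun q : List Bool => A q = true)) : InfinitePH A ↔ InfinitePH emp := by
  have key : ∀ {n : ℕ} {S : List Bool → Prop}, Lev D n S → Adv emp (2 * n + (2 * (2 * 0) + 2)) S :=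
    fun hS => adv_of_sparse (A := D) (B := emp) (R := D) (fun q => by simp [emp]) hD
      (TH680.IE.tl_query emp) hS.isSig
  rw [← not_iff_not, not_infinite_iff, not_infinite_iff]
  constructor
  · rintro ⟨K, hK⟩
    exact yap fun n S hS => key (Lev.derived h (hK _ _ (hS.of_emp (A := A))))
  · rintro ⟨K, hK⟩
    have h0 : SparseS (fun q => (D q ^^ emp q)) := by
      have : (fun q => (D q ^^ emp q)) = D := by
        funext q
        simp [emp]
      rwa [this]
    have h1 : ¬ InfinitePH D := fun h2 =>
      not_infinite_iff.2 ⟨K, hK⟩ ((TH680.IE.infinite_iff h0).1 h2)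
    obtain ⟨K1, hK1⟩ := not_infinite_iff.1 h1
    refine yap (K := 2 * K1 + (2 * (2 * 0) + 2) + 2) fun n S hS => ?_
    obtain ⟨S', g, P, h2, h3, h4⟩ := key (hK1 _ _ (Lev.derived h hS))
    exact ⟨S', g, P, h2.of_emp, h3, h4⟩

/-! ### Patterns -/

section pattern

variable {X : Type} [Fintype X] [DecidableEq X] {K : ℕ}

omit [Fintype X] in
theorem exists_ext [Fintype X] {s : Finset X} {f : X → X} (h : Set.InjOn f s) :
    ∃ τ : Equiv.Perm X, ∀ y ∈ s, τ y = f y := by
  obtain ⟨g, hg⟩ := Finset.exists_equiv_extend_of_card_eq (α := X)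
    (t := (Finset.univ : Finset X)) (by simp) (s := s) (f := f) (Finset.subset_univ _) h
  exact ⟨g.trans (Equiv.subtypeUnivEquiv (by simp)), fun y hy => hg y hy⟩

/-- every tuple looks like a tuple from a small set -/
theorem exists_pattern (K : ℕ) (S : Finset X) : ∃ F : Finset X, F.card ≤ K ∧
    ∀ x : Fin K → X, ∃ τ : Equiv.Perm X, (∀ y ∈ S, τ y = y) ∧ ∀ i, τ (x i) ∈ S ∪ F := by
  classical
  obtain ⟨F, hF, hFc⟩ := Finset.exists_subset_card_eq (s := Sᶜ) (n := min K Sᶜ.card)
    (min_le_right _ _)
  refine ⟨F, by omega, fun x => ?_⟩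
  set E : Finset X := Finset.univ.image x \ S with hE
  have h1 : E.card ≤ F.card := by
    rw [hFc]
    refine le_min ?_ (Finset.card_le_card ?_)
    · refine (Finset.card_le_card Finset.sdiff_subset).trans (Finset.card_image_le.trans ?_)
      simp
    · intro y hy
      rw [Finset.mem_compl]
      exact (Finset.mem_sdiff.1 hy).2
  obtain ⟨g⟩ : Nonempty (E ↪ F) := by
    rw [Function.Embedding.nonempty_iff_card_le]
    simpa using h1
  set f : X → X := fun y => if h : y ∈ E then (g ⟨y, h⟩ : X) else y with hf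
  have f1 : ∀ y ∈ E, f y ∈ F := by
    intro y hy
    rw [hf]
    dsimp only
    rw [dif_pos hy]
    exact (g ⟨y, hy⟩).2
  have f2 : ∀ y, y ∉ E → f y = y := by
    intro y hy
    rw [hf]
    dsimp only
    rw [dif_neg hy]
  have hSE : ∀ y ∈ S, y ∉ E := fun y hy h => (Finset.mem_sdiff.1 h).2 hy
  have hFS : ∀ y ∈ F, y ∉ S := fun y hy => Finset.mem_compl.1 (hF hy)
  have f3 : Set.InjOn f (S ∪ E : Finset X) := by
    intro y hy y' hy' hyy
    by_cases h1 : y ∈ E
    · by_cases h2 : y' ∈ E
      · rw [hf] at hyy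
        dsimp only at hyy
        rw [dif_pos h1, dif_pos h2] at hyy
        have h3 := g.injective (Subtype.ext hyy)
        exact congrArg Subtype.val h3
      · exfalso
        have h4 : y' ∈ S := (Finset.mem_union.1 hy').resolve_right h2
        rw [f2 y' h2] at hyy
        have h3 := f1 y h1
        rw [hyy] at h3
        exact hFS _ h3 h4
    · by_cases h2 : y' ∈ E
      · exfalso
        have h4 : y ∈ S := (Finset.mem_union.1 hy).resolve_right h1
        rw [f2 y h1] at hyy
        have h3 := f1 y' h2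
        rw [← hyy] at h3
        exact hFS _ h3 h4
      · rw [f2 y h1, f2 y' h2] at hyy
        exact hyy
  obtain ⟨τ, hτ⟩ := exists_ext f3
  refine ⟨τ, fun y hy => ?_, fun i => ?_⟩
  · rw [hτ y (Finset.mem_union_left _ hy), f2 y (hSE y hy)]
  · by_cases h4 : x i ∈ S
    · rw [hτ _ (Finset.mem_union_left _ h4), f2 _ (hSE _ h4)]
      exact Finset.mem_union_left _ h4
    · have h5 : x i ∈ E := Finset.mem_sdiff.2 ⟨Finset.mem_image_of_mem _ (Finset.mem_univ _), h4⟩
      rw [hτ _ (Finset.mem_union_right _ h5)]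
      exact Finset.mem_union_right _ (f1 _ h5)

/-- tuples that look alike -/
theorem exists_perm_of_pattern {S : Finset X} {x z : Fin K → X} (h1 : ∀ i, x i ∈ S → z i = x i)
    (h2 : ∀ i, z i ∈ S → z i = x i) (h3 : ∀ i j, z i = z j ↔ x i = x j) :
    ∃ τ : Equiv.Perm X, (∀ y ∈ S, τ y = y) ∧ ∀ i, z i = τ (x i) := by
  classical
  set f : X → X := fun y => if h : ∃ i, x i = y then z h.choose else y with hf
  have f1 : ∀ i, f (x i) = z i := by
    intro i
    rw [hf]
    dsimp only
    have h4 : ∃ j, x j = x i := ⟨i, rfl⟩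
    rw [dif_pos h4]
    exact (h3 _ _).2 h4.choose_spec
  have f2 : ∀ y, (¬ ∃ i, x i = y) → f y = y := by
    intro y hy
    rw [hf]
    dsimp only
    rw [dif_neg hy]
  have f3 : Set.InjOn f (S ∪ Finset.univ.image x : Finset X) := by
    intro y hy y' hy' hyy
    by_cases e1 : ∃ i, x i = y
    · obtain ⟨i, rfl⟩ := e1
      by_cases e2 : ∃ i, x i = y'
      · obtain ⟨j, rfl⟩ := e2
        rw [f1, f1] at hyy
        exact (h3 _ _).1 hyy
      · rw [f1, f2 y' e2] at hyy
        have e3 : y' ∈ S := by
          refine (Finset.mem_union.1 hy').resolve_right fun h => e2 ?_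
          obtain ⟨j, _, hj⟩ := Finset.mem_image.1 h
          exact ⟨j, hj⟩
        rw [← hyy] at e3
        rw [← h2 i e3, hyy]
    · by_cases e2 : ∃ i, x i = y'
      · obtain ⟨j, rfl⟩ := e2
        rw [f1, f2 y e1] at hyy
        have e3 : y ∈ S := by
          refine (Finset.mem_union.1 hy).resolve_right fun h => e1 ?_
          obtain ⟨j, _, hj⟩ := Finset.mem_image.1 h
          exact ⟨j, hj⟩
        rw [hyy] at e3
        rw [← h2 j e3, hyy]
      · rw [f2 y e1, f2 y' e2] at hyy
        exact hyy
  obtain ⟨τ, hτ⟩ := exists_ext f3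
  refine ⟨τ, fun y hy => ?_, fun i => ?_⟩
  · rw [hτ y (Finset.mem_union_left _ hy)]
    by_cases e1 : ∃ i, x i = y
    · obtain ⟨i, rfl⟩ := e1
      rw [f1, h1 i hy]
    · exact f2 y e1
  · rw [hτ _ (Finset.mem_union_right _ (Finset.mem_image_of_mem _ (Finset.mem_univ _))), f1]

end pattern

variable {K : ℕ}

open Classical in
/-- the sparse oracle -/
noncomputable def Dor (R : Strs K) (S F : (n : ℕ) → Finset (Fin n → Bool)) : Oracle
  | [] => false
  | false :: y => decide (∃ n, ∃ x ∈ S n, y = List.ofFn x)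
  | true :: q => decide (∃ n, ∃ z : Fin K → Fin n → Bool, (∀ i, z i ∈ S n ∪ F n) ∧
      q = (lst z).flatten ∧ R n z = true)

theorem dor_false {R : Strs K} {S F : (n : ℕ) → Finset (Fin n → Bool)} {n : ℕ}
    (x : Fin n → Bool) : Dor R S F (false :: List.ofFn x) = true ↔ x ∈ S n := by
  simp only [Dor, decide_eq_true_eq]
  constructor
  · rintro ⟨n', x', hx', h⟩
    have h1 : n = n' := by
      have := congrArg List.length h
      simpa using this
    subst h1
    rw [List.ofFn_injective h]
    exact hx'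
  · intro h
    exact ⟨n, x, h, rfl⟩

theorem dor_true {R : Strs K} {S F : (n : ℕ) → Finset (Fin n → Bool)} {q : List Bool} :
    Dor R S F (true :: q) = true ↔ ∃ n, ∃ z : Fin K → Fin n → Bool, (∀ i, z i ∈ S n ∪ F n) ∧
      q = (lst z).flatten ∧ R n z = true := by
  simp only [Dor, decide_eq_true_eq]

theorem sparse_dor (hK : 1 ≤ K) (R : Strs K) {S F : (n : ℕ) → Finset (Fin n → Bool)} {c : ℕ}
    (hS : ∀ n, (S n).card ≤ n ^ c + c) (hF : ∀ n, (F n).card ≤ K) :
    SparseS (Dor R S F) := by
  classical
  obtain ⟨c', hc'⟩ := poly_le ((Polynomial.X ^ c + Polynomial.C c) +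
    (Polynomial.X ^ c + Polynomial.C (c + K)) ^ K) 0
  refine ⟨c', fun n => ?_⟩
  refine le_trans ?_ (hc' n)
  have he : ((Polynomial.X ^ c + Polynomial.C c) +
    (Polynomial.X ^ c + Polynomial.C (c + K)) ^ K : Polynomial ℕ).eval n + 0 =
      (n ^ c + c) + (n ^ c + (c + K)) ^ K := by simp
  rw [he]
  have h1 : ((Finset.univ.filter (fun v : Fin n → Bool =>
      Dor R S F (List.ofFn v) = true)).image List.ofFn) ⊆
      (S (n - 1)).image (fun y => false :: List.ofFn y) ∪
      (Fintype.piFinset (fun _ : Fin K => S ((n - 1) / K) ∪ F ((n - 1) / K))).image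
        (fun z => true :: (lst z).flatten) := by
    intro q hq
    rw [Finset.mem_image] at hq
    obtain ⟨v, hv, rfl⟩ := hq
    rw [Finset.mem_filter] at hv
    have hv2 := hv.2
    have hl : (List.ofFn v).length = n := List.length_ofFn
    rcases hq : List.ofFn v with _ | ⟨_ | _, q⟩
    · rw [hq] at hv2
      exact Bool.noConfusion hv2
    · rw [hq] at hv2 hl
      have hl' : q.length = n - 1 := by
        rw [List.length_cons] at hl
        omega
      rw [Finset.mem_union]
      left
      have h2 : List.ofFn (fn (n - 1) q) = q := ofFn_fn hl'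
      rw [← h2, dor_false] at hv2
      rw [Finset.mem_image]
      exact ⟨_, hv2, by rw [h2]⟩
    · rw [hq] at hv2 hl
      have hl' : q.length = n - 1 := by
        rw [List.length_cons] at hl
        omega
      rw [Finset.mem_union]
      right
      rw [dor_true] at hv2
      obtain ⟨m, z, hz, hqz, _⟩ := hv2
      have h2 : q.length = K * m := by rw [hqz, length_flatten (tup_lst z)]
      have h3 : (n - 1) / K = m := by
        rw [← hl', h2, Nat.mul_div_cancel_left m (by omega)]
      rw [h3, Finset.mem_image]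
      refine ⟨z, ?_, by rw [hqz]⟩
      rw [Fintype.mem_piFinset]
      exact hz
  calc (Finset.univ.filter (fun v : Fin n → Bool => Dor R S F (List.ofFn v) = true)).card
      = ((Finset.univ.filter (fun v : Fin n → Bool =>
        Dor R S F (List.ofFn v) = true)).image List.ofFn).card :=
        (Finset.card_image_of_injective _ List.ofFn_injective).symm
    _ ≤ _ := Finset.card_le_card h1
    _ ≤ _ := Finset.card_union_le _ _
    _ ≤ (n ^ c + c) + (n ^ c + (c + K)) ^ K := by
        refine Nat.add_le_add ?_ ?_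
        · refine Finset.card_image_le.trans ((hS _).trans ?_)
          have := Nat.pow_le_pow_left (Nat.sub_le n 1) c
          omega
        · refine Finset.card_image_le.trans ?_
          rw [Fintype.card_piFinset_const]
          refine Nat.pow_le_pow_left ?_ K
          refine (Finset.card_union_le _ _).trans ?_
          have h2 : (n - 1) / K ≤ n := (Nat.div_le_self _ _).trans (Nat.sub_le n 1)
          have h3 := Nat.pow_le_pow_left h2 c
          have h4 := hS ((n - 1) / K)
          have h5 := hF ((n - 1) / K)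
          omega

theorem getD_fn {n : ℕ} {t : List (List Bool)} (ht : Tup K n t) (i : Fin K) :
    t.getD i [] = List.ofFn (fn n (t.getD i [])) := by
  have hi : (i : ℕ) < t.length := by rw [ht.1]; exact i.2
  have h1 : t.getD i [] ∈ t := by
    rw [List.getD_eq_getElem?_getD, List.getElem?_eq_getElem hi]
    exact List.getElem_mem hi
  exact (ofFn_fn (ht.2 _ h1)).symm

theorem tl_dor (hK : 1 ≤ K) {R : Strs K} {S F : (n : ℕ) → Finset (Fin n → Bool)}
    (hS : ∀ n, Sup (X := Fin n → Bool) (R n) (S n))
    (hF : ∀ n, ∀ x : Fin K → Fin n → Bool, ∃ τ : Equiv.Perm (Fin n → Bool),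
      (∀ y ∈ S n, τ y = y) ∧ ∀ i, τ (x i) ∈ S n ∪ F n) :
    TL (Dor R S F) 4 (fun q : List Bool => ora R q = true) := by
  set D := Dor R S F with hD
  -- the variables: `(q, ((l, t), z))`
  have h1 : TL D 0 (fun v : List Bool × ((List Bool × List (List Bool)) × List (List Bool)) =>
      Tup K v.2.1.1.length v.2.1.2) :=
    tl_tup D (Poly.length (Poly.fst (Poly.fst (Poly.snd Poly.id))))
      (Poly.snd (Poly.fst (Poly.snd Poly.id)))
  have h2 : TL D 0 (fun v : List Bool × ((List Bool × List (List Bool)) × List (List Bool)) =>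
      v.2.1.2.flatten = v.1) :=
    TL.dec D (Poly.decide_eq (Poly.flatten (Poly.snd (Poly.fst (Poly.snd Poly.id))))
      (Poly.fst Poly.id))
  have h3 : TL D 0 (fun v : List Bool × ((List Bool × List (List Bool)) × List (List Bool)) =>
      Tup K v.2.1.1.length v.2.2) :=
    tl_tup D (Poly.length (Poly.fst (Poly.fst (Poly.snd Poly.id)))) (Poly.snd (Poly.snd Poly.id))
  have ht : Poly (fun u : (List Bool × ((List Bool × List (List Bool)) ×
      List (List Bool))) × ℕ => u.1.2.1.2.getD u.2 []) :=
    Poly.getD (Poly.snd (Poly.fst (Poly.snd (Poly.fst Poly.id)))) (Poly.snd Poly.id)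
      (NPC.Poly.const [])
  have hz : Poly (fun u : (List Bool × ((List Bool × List (List Bool)) ×
      List (List Bool))) × ℕ => u.1.2.2.getD u.2 []) :=
    Poly.getD (Poly.snd (Poly.snd (Poly.fst Poly.id))) (Poly.snd Poly.id) (NPC.Poly.const [])
  have h4 : TL D 0 (fun u : (List Bool × ((List Bool × List (List Bool)) ×
      List (List Bool))) × ℕ => D (false :: u.1.2.1.2.getD u.2 []) = true) :=
    TL.query D (Poly.cons (NPC.Poly.const false) ht)
  have h5 : TL D 0 (fun u : (List Bool × ((List Bool × List (List Bool)) ×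
      List (List Bool))) × ℕ => D (false :: u.1.2.2.getD u.2 []) = true) :=
    TL.query D (Poly.cons (NPC.Poly.const false) hz)
  have h6 : TL D 0 (fun u : (List Bool × ((List Bool × List (List Bool)) ×
      List (List Bool))) × ℕ => u.1.2.2.getD u.2 [] = u.1.2.1.2.getD u.2 []) :=
    TL.dec D (Poly.decide_eq hz ht)
  have h7 := ((h4.or h5).imp h6).allLt (m := fun _ => K) (UPoly.const K)
  have ht1 : Poly (fun u : ((List Bool × ((List Bool × List (List Bool)) ×
      List (List Bool))) × ℕ) × ℕ => u.1.1.2.1.2.getD u.1.2 []) := ht.comp (Poly.fst Poly.id)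
  have hz1 : Poly (fun u : ((List Bool × ((List Bool × List (List Bool)) ×
      List (List Bool))) × ℕ) × ℕ => u.1.1.2.2.getD u.1.2 []) := hz.comp (Poly.fst Poly.id)
  have ht2 : Poly (fun u : ((List Bool × ((List Bool × List (List Bool)) ×
      List (List Bool))) × ℕ) × ℕ => u.1.1.2.1.2.getD u.2 []) :=
    Poly.getD (Poly.snd (Poly.fst (Poly.snd (Poly.fst (Poly.fst Poly.id))))) (Poly.snd Poly.id)
      (NPC.Poly.const [])
  have hz2 : Poly (fun u : ((List Bool × ((List Bool × List (List Bool)) ×
      List (List Bool))) × ℕ) × ℕ => u.1.1.2.2.getD u.2 []) :=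
    Poly.getD (Poly.snd (Poly.snd (Poly.fst (Poly.fst Poly.id)))) (Poly.snd Poly.id)
      (NPC.Poly.const [])
  have h8 : TL D 0 (fun u : ((List Bool × ((List Bool × List (List Bool)) ×
      List (List Bool))) × ℕ) × ℕ =>
      u.1.1.2.2.getD u.1.2 [] = u.1.1.2.2.getD u.2 []) := TL.dec D (Poly.decide_eq hz1 hz2)
  have h9 : TL D 0 (fun u : ((List Bool × ((List Bool × List (List Bool)) ×
      List (List Bool))) × ℕ) × ℕ =>
      u.1.1.2.1.2.getD u.1.2 [] = u.1.1.2.1.2.getD u.2 []) := TL.dec D (Poly.decide_eq ht1 ht2)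
  have h10 := ((h8.iff h9).allLt (m := fun _ => K) (UPoly.const K)).allLt (m := fun _ => K)
    (UPoly.const K)
  have h11 : TL D 0 (fun v : List Bool × ((List Bool × List (List Bool)) × List (List Bool)) =>
      D (true :: v.2.2.flatten) = true) :=
    TL.query D (Poly.cons (NPC.Poly.const true) (Poly.flatten (Poly.snd (Poly.snd Poly.id))))
  have h12 := (h1.and (h2.and (h3.and (h7.and (h10.and h11))))).ex
    (m := fun q : List Bool => (4 * q.length + 1) + 2 * (K * (4 * q.length + 2) + 1) + 2)
    (UPoly.add (UPoly.add (UPoly.add (UPoly.mul (UPoly.const 4) (UPoly.length Poly.id))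
      (UPoly.const 1)) (UPoly.mul (UPoly.const 2) (UPoly.add (UPoly.mul (UPoly.const K)
        (UPoly.add (UPoly.mul (UPoly.const 4) (UPoly.length Poly.id)) (UPoly.const 2)))
        (UPoly.const 1)))) (UPoly.const 2))
  refine (h12.mono (by omega)).congr fun q => ?_
  constructor
  · intro hq
    obtain ⟨n, t, ht, rfl⟩ := tup_of_ora _ hq
    have hlen : n ≤ t.flatten.length := by
      rw [length_flatten ht]
      nlinarith
    set x : Fin K → Fin n → Bool := fun i => fn n (t.getD i []) with hx
    obtain ⟨τ, hτ, hτ'⟩ := hF n x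
    set z : Fin K → Fin n → Bool := fun i => τ (x i) with hz
    have e1 : ∀ i : Fin K, t.getD i [] = List.ofFn (x i) := fun i => getD_fn ht i
    have e2 : ∀ i : Fin K, (lst z).getD i [] = List.ofFn (z i) := fun i => getD_lst z i
    refine ⟨((List.replicate n false, t), lst z), ?_, ?_, rfl, ?_, ?_, ?_, ?_⟩
    · rw [sz_pair, sz_pair]
      have e1 := sz_listBool_le (List.replicate n false)
      have e2 := sz_tup ht
      have e3 := sz_tup (tup_lst z)
      rw [List.length_replicate] at e1
      have e4 : K * (4 * n + 2) ≤ K * (4 * t.flatten.length + 2) := Nat.mul_le_mul_left _ (by omega)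
      omega
    · rw [List.length_replicate]
      exact ht
    · rw [List.length_replicate]
      exact tup_lst z
    · intro i hi
      have e3 := e1 ⟨i, hi⟩
      have e4 := e2 ⟨i, hi⟩
      dsimp only at e3 e4 ⊢
      rw [e3, e4, hD, dor_false, dor_false]
      rintro (h | h)
      · rw [hz]
        dsimp only
        rw [hτ _ h]
      · have e5 : z ⟨i, hi⟩ = x ⟨i, hi⟩ := τ.injective (hτ _ h)
        rw [e5]
    · intro i hi j hj
      have e3 := e1 ⟨i, hi⟩
      have e4 := e2 ⟨i, hi⟩
      have e5 := e1 ⟨j, hj⟩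
      have e6 := e2 ⟨j, hj⟩
      dsimp only at e3 e4 e5 e6 ⊢
      rw [e3, e4, e5, e6, List.ofFn_injective.eq_iff, List.ofFn_injective.eq_iff]
      exact τ.injective.eq_iff
    · dsimp only
      rw [hD, dor_true]
      refine ⟨n, z, hτ', rfl, ?_⟩
      have e3 := congrFun (hS n τ hτ) x
      rw [ora_flatten hK R ht] at hq
      have e4 : R n z = R n x := e3
      rw [e4, hx]
      exact hq
  · rintro ⟨⟨⟨l, t⟩, z⟩, _, h13, h14, h15, h16, h17, h18⟩
    dsimp only at h13 h14 h15 h16 h17 h18
    rw [hD, dor_true] at h18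
    obtain ⟨m, z', hz', hzz, hRz⟩ := h18
    set n := l.length with hn
    set x : Fin K → Fin n → Bool := fun i => fn n (t.getD i []) with hx
    set y : Fin K → Fin n → Bool := fun i => fn n (z.getD i []) with hy
    have e1 : ∀ i : Fin K, t.getD i [] = List.ofFn (x i) := fun i => getD_fn h13 i
    have e2 : ∀ i : Fin K, z.getD i [] = List.ofFn (y i) := fun i => getD_fn h15 i
    have e3 : ∀ i : Fin K, x i ∈ S n ∨ y i ∈ S n → y i = x i := by
      intro i h
      have e4 := h16 i i.2
      rw [e1, e2, hD, dor_false, dor_false] at e4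
      exact List.ofFn_injective (e4 h)
    have e5 : ∀ i j : Fin K, y i = y j ↔ x i = x j := by
      intro i j
      have e6 := h17 i i.2 j j.2
      rw [e1, e2, e1, e2, List.ofFn_injective.eq_iff, List.ofFn_injective.eq_iff] at e6
      exact e6
    obtain ⟨τ, hτ, hτ'⟩ := exists_perm_of_pattern (S := S n) (x := x) (z := y)
      (fun i h => e3 i (Or.inl h)) (fun i h => e3 i (Or.inr h)) e5
    have e7 := congrFun (hS n τ hτ) x
    have e8 : R n y = R n x := by
      have : y = fun i => τ (x i) := funext hτ'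
      rw [this]
      exact e7
    have e9 : ora R z.flatten = true := by rw [hzz, ora_lst hK, hRz]
    rw [ora_flatten hK R h15] at e9
    rw [← h14, ora_flatten hK R h13]
    exact e8.symm.trans e9

/-- **Small supports.** -/
theorem infinite_iff_of_supp (hK : 1 ≤ K) {R : Strs K} (h : ∃ c : ℕ, ∀ n, supp (R n) ≤ n ^ c + c) :
    InfinitePH (ora R) ↔ InfinitePH (fun _ => false) := by
  obtain ⟨c, hc⟩ := h
  have h1 : ∀ n, ∃ S : Finset (Fin n → Bool), S.card = supp (R n) ∧
      Sup (X := Fin n → Bool) (R n) S := fun n => exists_sup (X := Fin n → Bool) (R n)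
  choose S hS hS' using h1
  have h2 := fun n => exists_pattern K (S n)
  choose F hF hF' using h2
  exact infinite_iff_of_tl (sparse_dor hK R (c := c) (fun n => by rw [hS]; exact hc n) hF)
    (tl_dor hK hS' hF')

end Pool.Agent.TH442.RS
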