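import Pool.Agent.TH442.RS.Defs
import Pool.Agent.TH442.RP.Flip
import Pool.Agent.NPC.Num

/-! The randomisation. -/

set_option autoImplicit false

namespace Pool.Agent.TH442.RS

open Pool.Agent.H620R2.Gauge Pool.Agent.NPC
open Pool.Agent.TH442.RP (Perms app P flip flip_cons length_flip flip_flip app_P P_mul P_false
  app_ofFn)

variable {K : ℕ}

/-- the relations after renaming the strings -/
def ac (π : Perms) (R : Strs K) : Strs K := fun n => ren (π n) (R n)

theorem ac_ac (π σ : Perms) (R : Strs K) : ac π (ac σ R) = ac (σ * π) R := rfl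

theorem ac_one (R : Strs K) : ac 1 R = R := rfl

theorem ac_P_P (c d : Oracle) (R : Strs K) :
    ac (P c) (ac (P d) R) = ac (P (fun w => (d w ^^ c w))) R := by
  rw [ac_ac, P_mul]

theorem ac_P_self (c : Oracle) (R : Strs K) : ac (P c) (ac (P c) R) = R := by
  rw [ac_P_P]
  have : (fun w => (c w ^^ c w)) = fun _ => false := by funext w; simp
  rw [this, P_false, ac_one]

theorem fn_flip (c : Oracle) {n : ℕ} {b : List Bool} (hb : b.length = n) :
    fn n (flip c b) = P c n (fn n b) := by
  have h1 : app (P c) (List.ofFn (fn n b)) = List.ofFn (P c n (fn n b)) := app_ofFn _ _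
  rw [ofFn_fn hb, app_P] at h1
  rw [h1, fn_ofFn]

theorem tup_map {n : ℕ} {t : List (List Bool)} (ht : Tup K n t) {f : List Bool → List Bool}
    (hf : ∀ b : List Bool, b.length = n → (f b).length = n) : Tup K n (t.map f) := by
  refine ⟨by rw [List.length_map, ht.1], fun b hb => ?_⟩
  rw [List.mem_map] at hb
  obtain ⟨a, ha, rfl⟩ := hb
  exact hf a (ht.2 a ha)

theorem ora_ac (hK : 1 ≤ K) (c : Oracle) (R : Strs K) {n : ℕ} {t : List (List Bool)}
    (ht : Tup K n t) : ora (ac (P c) R) t.flatten = ora R (t.map (flip c)).flatten := by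
  rw [ora_flatten hK _ ht, ora_flatten hK R (tup_map ht fun b hb => by rw [length_flip, hb])]
  unfold ac ren
  congr 1
  funext i
  have hi : (i : ℕ) < t.length := by rw [ht.1]; exact i.2
  have h1 : t.getD i [] ∈ t := by
    rw [List.getD_eq_getElem?_getD, List.getElem?_eq_getElem hi]
    exact List.getElem_mem hi
  have h2 : (t.map (flip c)).getD i [] = flip c (t.getD i []) := by
    rw [List.getD_eq_getElem?_getD, List.getD_eq_getElem?_getD, List.getElem?_map,
      List.getElem?_eq_getElem hi]
    rfl
  rw [h2, fn_flip c (ht.2 _ h1)]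

/-- the strings that do not start with `0` are replaced by `x` -/
def sb (x b : List Bool) : List Bool := if b.head? = some false then b else x

theorem length_sb {n : ℕ} {x b : List Bool} (hx : x.length = n) (hb : b.length = n) :
    (sb x b).length = n := by
  unfold sb
  split_ifs
  · exact hb
  · exact hx

theorem flip_sb (c : Oracle) (x b : List Bool) : flip c (sb x b) = sb (flip c x) b := by
  unfold sb
  split_ifs with h
  · rcases b with _ | ⟨a, _ | ⟨e, w⟩⟩
    · rfl
    · rfl
    · have : a = false := by simpa using h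
      subst this
      simp [flip_cons]
  · rfl

/-- the value at the tuple, with `1ew` at the places where the string does not start with `0` -/
def val (R : Strs K) (w : List Bool) (e : Bool) (t : List (List Bool)) : Bool :=
  ora R (t.map (sb (true :: e :: w))).flatten

theorem tup_sb {w : List Bool} {t : List (List Bool)} (ht : Tup K (w.length + 2) t) (e : Bool) :
    Tup K (w.length + 2) (t.map (sb (true :: e :: w))) :=
  tup_map ht fun _ hb => length_sb (by simp) hb

theorem val_ac (hK : 1 ≤ K) (c : Oracle) (R : Strs K) (w : List Bool) (e : Bool)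
    {t : List (List Bool)} (ht : Tup K (w.length + 2) t) :
    val (ac (P c) R) w e t = val R w (e ^^ c w) t := by
  unfold val
  rw [ora_ac hK c R (tup_sb ht e), List.map_map]
  have h : (flip c ∘ sb (true :: e :: w)) = sb (true :: (e ^^ c w) :: w) := by
    funext b
    show flip c (sb (true :: e :: w) b) = _
    rw [flip_sb, flip_cons]
    simp
  rw [h]

/-- the tuple distinguishes `10w` and `11w` -/
def dst (R : Strs K) (w : List Bool) (t : List (List Bool)) : Prop :=
  Tup K (w.length + 2) t ∧ val R w false t ≠ val R w true t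

theorem dst_ac (hK : 1 ≤ K) (c : Oracle) (R : Strs K) (w : List Bool) (t : List (List Bool)) :
    dst (ac (P c) R) w t ↔ dst R w t := by
  unfold dst
  refine and_congr_right fun ht => ?_
  rw [val_ac hK c R w false ht, val_ac hK c R w true ht]
  cases c w
  · simp
  · simp only [Bool.bne_true, Bool.not_true, Bool.not_false]
    exact ne_comm

/-- the tuple is the first one that distinguishes `10w` and `11w` -/
def fst (R : Strs K) (w : List Bool) (t : List (List Bool)) : Prop :=
  dst R w t ∧ ∀ t', dst R w t' → valB t.flatten ≤ valB t'.flatten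

theorem fst_ac (hK : 1 ≤ K) (c : Oracle) (R : Strs K) (w : List Bool) (t : List (List Bool)) :
    fst (ac (P c) R) w t ↔ fst R w t := by
  unfold fst
  simp only [dst_ac hK]

theorem valB_inj : ∀ {l l' : List Bool}, l.length = l'.length → valB l = valB l' → l = l' := by
  intro l
  induction l with
  | nil =>
    intro l' h _
    exact (List.eq_nil_of_length_eq_zero (by simpa using h.symm)).symm
  | cons b l ih =>
    intro l' h h'
    rcases l' with _ | ⟨b', l'⟩
    · simp at h
    · have e1 : ∀ (b : Bool) (l : List Bool), valB (b :: l) = (if b then 1 else 0) + 2 * valB l := by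
        intro b l
        cases b <;> simp [valB]
      rw [e1, e1] at h'
      have hb : b = b' := by
        cases b <;> cases b' <;> simp at h' ⊢ <;> omega
      subst hb
      have h2 : valB l = valB l' := by
        cases b <;> simp at h' <;> omega
      rw [ih (by simpa using h) h2]

theorem tup_ext : ∀ {K n : ℕ} {t t' : List (List Bool)}, Tup K n t → Tup K n t' →
    t.flatten = t'.flatten → t = t' := by
  intro K n t
  induction t generalizing K with
  | nil =>
    intro t' ht ht' _
    have h1 : K = 0 := by rw [← ht.1]; rfl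
    exact (List.eq_nil_of_length_eq_zero (by rw [ht'.1, h1])).symm
  | cons b t ih =>
    intro t' ht ht' h
    rcases t' with _ | ⟨b', t'⟩
    · have h1 : K = 0 := by rw [← ht'.1]; rfl
      have h2 := ht.1
      rw [h1] at h2
      simp at h2
    · have e1 := ht.2 b (by simp)
      have e2 := ht'.2 b' (by simp)
      rw [List.flatten_cons, List.flatten_cons] at h
      obtain ⟨h3, h4⟩ := List.append_inj h (by rw [e1, e2])
      have e3 : K - 1 = t.length := by rw [← ht.1]; simp
      have e4 : K - 1 = t'.length := by rw [← ht'.1]; simp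
      rw [h3, ih (K := K - 1) ⟨e3.symm, fun c hc => ht.2 c (by simp [hc])⟩
        ⟨e4.symm, fun c hc => ht'.2 c (by simp [hc])⟩ h4]

theorem fst_unique {R : Strs K} {w : List Bool} {t t' : List (List Bool)} (h : fst R w t)
    (h' : fst R w t') : t = t' := by
  refine tup_ext h.1.1 h'.1.1 (valB_inj ?_ ?_)
  · rw [length_flatten h.1.1, length_flatten h'.1.1]
  · exact le_antisymm (h.2 t' h'.1) (h'.2 t h.1)

theorem exists_fst {R : Strs K} {w : List Bool} (h : ∃ t, dst R w t) : ∃ t, fst R w t := by
  classical
  have h1 : ∃ m : ℕ, ∃ t, dst R w t ∧ valB t.flatten = m := by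
    obtain ⟨t, ht⟩ := h
    exact ⟨_, t, ht, rfl⟩
  obtain ⟨t, ht, h2⟩ := Nat.find_spec h1
  refine ⟨t, ht, fun t' ht' => ?_⟩
  rw [h2]
  exact Nat.find_min' h1 ⟨t', ht', rfl⟩

open Classical in
/-- some tuple distinguishes `10w` and `11w` -/
noncomputable def T (R : Strs K) (w : List Bool) : Bool := decide (∃ t, dst R w t)

open Classical in
/-- the value at the first distinguishing tuple is `1` with `11w` -/
noncomputable def Rb (R : Strs K) (w : List Bool) : Bool :=
  decide (∃ t, fst R w t ∧ val R w true t = true)

theorem T_iff {R : Strs K} {w : List Bool} : T R w = true ↔ ∃ t, dst R w t := by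
  simp [T]

theorem Rb_iff {R : Strs K} {w : List Bool} :
    Rb R w = true ↔ ∃ t, fst R w t ∧ val R w true t = true := by
  simp [Rb]

theorem Rb_eq {R : Strs K} {w : List Bool} {t : List (List Bool)} (h : fst R w t) :
    Rb R w = val R w true t := by
  cases hv : val R w true t with
  | true => exact Rb_iff.2 ⟨t, h, hv⟩
  | false =>
    rw [← Bool.not_eq_true, Rb_iff]
    rintro ⟨t', h', h2⟩
    rw [fst_unique h' h, hv] at h2
    exact Bool.noConfusion h2

theorem Rb_false {R : Strs K} {w : List Bool} (h : T R w = false) : Rb R w = false := by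
  rw [← Bool.not_eq_true, Rb_iff]
  rintro ⟨t, h1, _⟩
  rw [T_iff.2 ⟨t, h1.1⟩] at h
  exact Bool.noConfusion h

theorem T_ac (hK : 1 ≤ K) (c : Oracle) (R : Strs K) (w : List Bool) :
    T (ac (P c) R) w = T R w := by
  rw [Bool.eq_iff_iff, T_iff, T_iff]
  simp only [dst_ac hK]

theorem Rb_ac (hK : 1 ≤ K) (c : Oracle) (R : Strs K) (w : List Bool) :
    Rb (ac (P c) R) w = (Rb R w ^^ (c w && T R w)) := by
  cases hT : T R w with
  | false =>
    rw [Rb_false (by rw [T_ac hK, hT]), Rb_false hT]
    simp
  | true =>
    obtain ⟨t, ht⟩ := exists_fst (T_iff.1 hT)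
    rw [Rb_eq ht, Rb_eq ((fst_ac hK c R w t).2 ht), val_ac hK c R w true ht.1.1]
    have h := ht.1.2
    cases c w
    · simp
    · cases h1 : val R w false t <;> cases h2 : val R w true t <;> simp [h1, h2] at h ⊢

/-- the swaps that are used -/
noncomputable def sw (c : Oracle) (R : Strs K) : Oracle := fun w => c (true :: w) && T R w

/-- the randomisation -/
noncomputable def Psi (c : Oracle) (R : Strs K) : Strs K := ac (P (sw c R)) R

/-- the part that is not random -/
noncomputable def rho (R : Strs K) : Strs K := ac (P (Rb R)) R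

theorem T_Psi (hK : 1 ≤ K) (c : Oracle) (R : Strs K) (w : List Bool) :
    T (Psi c R) w = T R w := T_ac hK _ _ _

theorem Rb_Psi (hK : 1 ≤ K) (c : Oracle) (R : Strs K) (w : List Bool) :
    Rb (Psi c R) w = (Rb R w ^^ (c (true :: w) && T R w)) := by
  unfold Psi
  rw [Rb_ac hK]
  unfold sw
  cases c (true :: w) <;> cases T R w <;> simp

theorem sw_Psi (hK : 1 ≤ K) (c : Oracle) (R : Strs K) : sw c (Psi c R) = sw c R := by
  funext w
  unfold sw
  rw [T_Psi hK]

theorem Psi_Psi (hK : 1 ≤ K) (c : Oracle) (R : Strs K) : Psi c (Psi c R) = R := by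
  conv_lhs => rw [Psi, sw_Psi hK]
  exact ac_P_self _ _

theorem rho_Psi (hK : 1 ≤ K) (c : Oracle) (R : Strs K) : rho (Psi c R) = rho R := by
  unfold rho
  conv_lhs => arg 2; rw [Psi]
  rw [ac_P_P]
  congr 2
  funext w
  rw [Rb_Psi hK]
  unfold sw
  cases Rb R w <;> cases c (true :: w) <;> cases T R w <;> rfl

theorem rho_back (R : Strs K) : ac (P (Rb R)) (rho R) = R := ac_P_self _ _

/-- the oracle with the random bits -/
noncomputable def oA (R : Strs K) : Oracle
  | [] => false
  | false :: q => ora (rho R) q
  | true :: w => Rb R w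

/-- the oracle without the random bits -/
noncomputable def oB (R : Strs K) : Oracle
  | [] => false
  | false :: q => ora (rho R) q
  | true :: _ => false

theorem oB_Psi (hK : 1 ≤ K) (c : Oracle) (R : Strs K) : oB (Psi c R) = oB R := by
  funext q
  rcases q with _ | ⟨_ | _, q⟩
  · rfl
  · show ora (rho (Psi c R)) q = ora (rho R) q
    rw [rho_Psi hK]
  · rfl

theorem oA_Psi (hK : 1 ≤ K) (c : Oracle) (R : Strs K) (q : List Bool) : oA (Psi c R) q =
    match q with
    | [] => false
    | false :: q => ora (rho R) q
    | true :: w => Rb R w ^^ (c (true :: w) && T R w) := by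
  rcases q with _ | ⟨_ | _, q⟩
  · rfl
  · show ora (rho (Psi c R)) q = ora (rho R) q
    rw [rho_Psi hK]
  · exact Rb_Psi hK c R q

/-- the number of pairs at which the relation can be changed -/
noncomputable def cT (R : Strs K) (m : ℕ) : ℕ :=
  (Finset.univ.filter (fun w : Fin m → Bool => T R (List.ofFn w) = true)).card

theorem cT_Psi (hK : 1 ≤ K) (c : Oracle) (R : Strs K) (m : ℕ) : cT (Psi c R) m = cT R m := by
  unfold cT
  congr 1
  apply Finset.filter_congr
  intro w _
  rw [T_Psi hK]

end Pool.Agent.TH442.RS
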