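import Pool.Agent.TH442.RS.Main

/-! Arbitrary laws that are invariant under renaming. -/

set_option autoImplicit false

namespace Pool.Agent.TH442.RS

open MeasureTheory ProbabilityTheory Pool.Agent.NPC Pool.Agent.H620R2.Gauge
  Pool.Agent.H591R3.PHG Pool.Agent.W900 Pool.Agent.W900.IE Pool.Agent.TH680.IE
open Pool.Agent.TH442.RP (Perms Bad meas_bad mo_xor isSig_iff_bad)

variable {K : ℕ}

instance (n : ℕ) : DiscreteMeasurableSpace (Equiv.Perm (Fin n → Bool)) := ⟨fun _ => trivial⟩

instance (K n : ℕ) : DiscreteMeasurableSpace (Str K n) := ⟨fun _ => trivial⟩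

/-- independent uniformly random renamings -/
noncomputable def um : Measure Perms :=
  Measure.infinitePi fun n =>
    (PMF.uniformOfFintype (Equiv.Perm (Fin n → Bool))).toMeasure

instance : IsProbabilityMeasure um := by
  unfold um
  infer_instance

theorem measurable_pair : Measurable fun p : Perms × Strs K => ac p.1 p.2 := by
  rw [measurable_pi_iff]
  intro n
  have h1 : Measurable fun p : Equiv.Perm (Fin n → Bool) × Str K n => ren p.1 p.2 :=
    Measurable.of_discrete
  have h2 : Measurable fun p : Perms × Strs K => (p.1 n, p.2 n) :=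
    ((measurable_pi_apply n).comp measurable_fst).prodMk
      ((measurable_pi_apply n).comp measurable_snd)
  exact h1.comp h2

/-- the law of the renamed relation -/
noncomputable def orb (R : Strs K) (n : ℕ) : PMF (Str K n) :=
  (PMF.uniformOfFintype (Equiv.Perm (Fin n → Bool))).map fun τ => ren τ (R n)

theorem ren_inj {n : ℕ} (σ : Equiv.Perm (Fin n → Bool)) {r r' : Str K n}
    (h : ren σ r = ren σ r') : r = r' := by
  have h1 : ren σ⁻¹ (ren σ r) = ren σ⁻¹ (ren σ r') := by rw [h]
  have h2 : ∀ r : Str K n, ren σ⁻¹ (ren σ r) = r := by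
    intro r
    funext x
    show r (fun i => σ (σ⁻¹ (x i))) = r x
    simp
  rwa [h2, h2] at h1

theorem inv_orb (R : Strs K) : Inv (orb R) := by
  classical
  intro n σ r
  unfold orb
  rw [PMF.map_apply, PMF.map_apply, ← (Equiv.mulRight σ).tsum_eq]
  refine tsum_congr fun τ => ?_
  have h1 : ren ((Equiv.mulRight σ) τ) (R n) = ren σ (ren τ (R n)) := rfl
  rw [h1]
  by_cases h : r = ren τ (R n)
  · rw [if_pos h, if_pos (by rw [h])]
    simp
  · rw [if_neg h, if_neg fun h' => h (ren_inj σ h')]

theorem map_um (R : Strs K) : um.map (fun π => ac π R) = law (orb R) := by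
  unfold um law ac
  rw [Measure.infinitePi_map_pi (μ := fun n =>
    (PMF.uniformOfFintype (Equiv.Perm (Fin n → Bool))).toMeasure)
    (f := fun n τ => ren τ (R n)) (fun n => Measurable.of_discrete)]
  congr 1
  funext n
  unfold orb
  rw [PMF.toMeasure_map]
  exact Measurable.of_discrete

/-- A set which is null for all the invariant independent laws is null for all invariant laws. -/
theorem null_of_inv {ρ : Measure (Strs K)} [IsProbabilityMeasure ρ]
    (hρ : ∀ π : Perms, ρ.map (ac π) = ρ) {E : Set (Strs K)} (hE : MeasurableSet E)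
    (h : ∀ μ : (n : ℕ) → PMF (Str K n), Inv μ → law μ E = 0) : ρ E = 0 := by
  set G : Set (Perms × Strs K) := (fun p => ac p.1 p.2) ⁻¹' E with hG
  have hGm : MeasurableSet G := measurable_pair hE
  have h1 : (um.prod ρ) G = ρ E := by
    rw [Measure.prod_apply hGm]
    have h2 : ∀ π, ρ (Prod.mk π ⁻¹' G) = ρ E := by
      intro π
      have h3 : Prod.mk π ⁻¹' G = ac π ⁻¹' E := rfl
      have h4 : Measurable (ac (K := K) π) :=
        (measurable_pair (K := K)).comp (measurable_prodMk_left (x := π))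
      rw [h3, ← Measure.map_apply h4 hE, hρ]
    simp only [h2]
    simp
  have h4 : (um.prod ρ) G = 0 := by
    rw [Measure.prod_apply_symm hGm]
    have h5 : ∀ R, um ((fun π => (π, R)) ⁻¹' G) = 0 := by
      intro R
      have h6 : (fun π => (π, R)) ⁻¹' G = (fun π => ac π R) ⁻¹' E := rfl
      have h7 : Measurable (fun π : Perms => ac π R) :=
        (measurable_pair (K := K)).comp measurable_prodMk_right
      rw [h6, ← Measure.map_apply h7 hE, map_um]
      exact h _ (inv_orb R)
    simp only [h5]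
    simp
  rw [← h1, h4]

theorem ae_hard_inv (hK : 1 ≤ K) {ρ : Measure (Strs K)} [IsProbabilityMeasure ρ]
    (hρ : ∀ π : Perms, ρ.map (ac π) = ρ) :
    ∀ᵐ R ∂ρ, Large R → ∀ k,
      ¬ IsSig (oA R) k (lang k (DO k (fun q => (oA R q ^^ oB R q)))) := by
  have h1 : ∀ᵐ R ∂ρ, ∀ θ : Par, R ∉ {R | Large R} ∩
      Bad (fun R : Strs K => oA R) (fun R q => (oA R q ^^ oB R q)) θ.M θ.p θ.k := by
    rw [ae_all_iff]
    intro θ
    rw [MeasureTheory.ae_iff]
    simp only [not_not]
    refine null_of_inv hρ ?_ fun μ hμ => ?_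
    · refine MeasurableSet.inter ?_ ?_
      · exact (meas_large measurable_id).setOf
      · exact meas_bad (mo_oA hK measurable_id) (mo_xor (mo_oA hK measurable_id)
          (mo_oB hK measurable_id)) _ _ _
    · have h2 := ae_hard_str hK hμ
      rw [MeasureTheory.ae_iff] at h2
      refine measure_mono_null ?_ h2
      rintro R ⟨h3, h4⟩ h5
      exact h5 h3 θ.k (isSig_iff_bad (O := fun R : Strs K => oA R)
          (D := fun R q => (oA R q ^^ oB R q)).2 ⟨_, _, h4⟩)
  filter_upwards [h1] with R hR hL k hk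
  obtain ⟨M, p, h2⟩ := (isSig_iff_bad (O := fun R : Strs K => oA R)
    (D := fun R q => (oA R q ^^ oB R q))).1 hk
  exact hR ⟨M, p, k, 0⟩ ⟨hL, h2⟩

theorem ae_cases_inv (hK : 1 ≤ K) {ρ : Measure (Strs K)} [IsProbabilityMeasure ρ]
    (hρ : ∀ π : Perms, ρ.map (ac π) = ρ) :
    ∀ᵐ R ∂ρ, (∃ c : ℕ, ∀ n, supp (R n) ≤ n ^ c + c) ∨ Large R := by
  rw [MeasureTheory.ae_iff]
  refine null_of_inv hρ ?_ fun μ hμ => ?_
  · have h1 : Measurable fun R : Strs K => (∃ c : ℕ, ∀ n, supp (R n) ≤ n ^ c + c) := by
      refine Measurable.exists fun c => Measurable.forall fun n => ?_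
      exact measurableSet_setOfPred.1 (meas_ev n {r : Str K n | supp r ≤ n ^ c + c})
    exact (h1.or (meas_large measurable_id)).not.setOf
  · have h2 := ae_cases hK hμ
    rwa [MeasureTheory.ae_iff] at h2

/-- **Random relations, arbitrary laws that are invariant under renaming.** -/
theorem main_inv (hK : 1 ≤ K) {ρ : Measure (Strs K)} [IsProbabilityMeasure ρ]
    (hρ : ∀ π : Perms, ρ.map (ac π) = ρ) : ∀ᵐ R ∂ρ,
    (InfinitePH (ora R) ↔
      (¬ ∃ c : ℕ, ∀ n, supp (R n) ≤ n ^ c + c) ∨ InfinitePH fun _ => false) := by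
  filter_upwards [ae_cases_inv hK hρ, ae_hard_inv hK hρ] with R h1 h2
  by_cases h : ∃ c : ℕ, ∀ n, supp (R n) ≤ n ^ c + c
  · rw [infinite_iff_of_supp hK h]
    constructor
    · exact Or.inr
    · rintro (h' | h')
      · exact absurd h h'
      · exact h'
  · have h3 := infinite_of_hard hK (h2 (h1.resolve_left h))
    exact ⟨fun _ => Or.inl h, fun _ => h3⟩

end Pool.Agent.TH442.RS
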