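import Pool.Agent.TH442.RP.Law
import Pool.Agent.TH442.RS.Flip

/-! The distribution of the relations, and the randomisation. -/

set_option autoImplicit false

namespace Pool.Agent.TH442.RS

open MeasureTheory Pool.Agent.NPC Pool.Agent.H620R2.Gauge Pool.Agent.H591R3.PHG
  Pool.Agent.W900.IE
open Pool.Agent.TH442.RP (Perms app P flip length_flip app_P MO meas_congr meas_flip mo_and mo_xor
  ext_at flip_congr)

variable {Ω : Type} [MeasurableSpace Ω] {K : ℕ}

instance (K n : ℕ) : Fintype (Str K n) := inferInstanceAs (Fintype ((Fin K → Fin n → Bool) → Bool))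

instance (K n : ℕ) : DecidableEq (Str K n) :=
  inferInstanceAs (DecidableEq ((Fin K → Fin n → Bool) → Bool))

theorem mo_ora {F : Ω → Strs K} (hF : Measurable F) : MO (fun ω => ora (F ω)) := by
  intro q
  by_cases h : q.length % K = 0
  · have h1 : Measurable fun r : Str K (q.length / K) =>
        (r (fun i j => q.getD (i * (q.length / K) + j) false) = true) := measurable_from_top
    refine meas_congr (fun ω => ?_) (h1.comp ((measurable_pi_apply (q.length / K)).comp hF))
    have h2 : ora (F ω) q =
        F ω (q.length / K) (fun i j => q.getD (i * (q.length / K) + j) false) := if_pos h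
    show _ ↔ ora (F ω) q = true
    rw [h2]
    rfl
  · refine meas_congr (fun ω => ?_) (measurable_const (a := False))
    have h2 : ora (F ω) q = false := if_neg h
    show _ ↔ ora (F ω) q = true
    rw [h2]
    simp

theorem measurable_of_ora (hK : 1 ≤ K) {F : Ω → Strs K} (h : MO (fun ω => ora (F ω))) :
    Measurable F := by
  rw [measurable_pi_iff]
  intro n
  refine measurable_to_countable' fun r => ?_
  have h1 : Measurable fun ω => (F ω n = r) := by
    refine meas_congr (fun ω => ?_) (Measurable.forall fun x : Fin K → Fin n → Bool =>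
      (h (lst x).flatten).iff (measurable_const (a := (r x = true))))
    constructor
    · intro h2
      funext x
      have h3 : ora (F ω) (lst x).flatten = true ↔ r x = true := h2 x
      rw [ora_lst hK, ← Bool.eq_iff_iff] at h3
      exact h3
    · rintro rfl x
      show ora (F ω) (lst x).flatten = true ↔ _
      rw [ora_lst hK]
  exact h1.setOf

theorem meas_map {C : Ω → Oracle} (hC : MO C) : ∀ (t z : List (List Bool)),
    Measurable fun ω => (t.map (flip (C ω)) = z) := by
  intro t
  induction t with
  | nil =>
    intro z
    exact (measurable_const : Measurable fun _ : Ω => (([] : List (List Bool)) = z))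
  | cons b t ih =>
    intro z
    rcases z with _ | ⟨c, z⟩
    · refine meas_congr (fun ω => ?_) (measurable_const (a := False))
      simp
    · refine meas_congr (fun ω => ?_) ((meas_flip hC b c).and (ih z))
      simp

theorem meas_ac (hK : 1 ≤ K) {C : Ω → Oracle} {F : Ω → Strs K} (hC : MO C) (hF : Measurable F) :
    Measurable fun ω => ac (P (C ω)) (F ω) := by
  refine measurable_of_ora hK fun q => ?_
  by_cases h : ∃ n t, Tup K n t ∧ t.flatten = q
  · obtain ⟨n, t, ht, rfl⟩ := h
    refine meas_congr (fun ω => ?_) (Measurable.exists fun z : List (List Bool) =>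
      (meas_map hC t z).and (mo_ora hF z.flatten))
    show _ ↔ ora (ac (P (C ω)) (F ω)) t.flatten = true
    rw [ora_ac hK _ _ ht]
    constructor
    · rintro ⟨z, rfl, h⟩
      exact h
    · intro h
      exact ⟨_, rfl, h⟩
  · refine meas_congr (fun ω => ?_) (measurable_const (a := False))
    constructor
    · exact False.elim
    · intro h'
      exact h (tup_of_ora _ h')

theorem meas_dst {F : Ω → Strs K} (hF : Measurable F) (w : List Bool) (t : List (List Bool)) :
    Measurable fun ω => dst (F ω) w t := by
  refine meas_congr (fun ω => ?_) ((measurable_const (a := Tup K (w.length + 2) t)).and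
    ((mo_ora hF (t.map (sb (true :: false :: w))).flatten).iff
      (mo_ora hF (t.map (sb (true :: true :: w))).flatten)).not)
  unfold dst val
  refine and_congr_right fun _ => not_congr ?_
  exact Bool.eq_iff_iff.symm

theorem meas_fst {F : Ω → Strs K} (hF : Measurable F) (w : List Bool) (t : List (List Bool)) :
    Measurable fun ω => fst (F ω) w t :=
  (meas_dst hF w t).and (Measurable.forall fun t' : List (List Bool) =>
    (meas_dst hF w t').imp (measurable_const (a := (valB t.flatten ≤ valB t'.flatten))))

theorem mo_T {F : Ω → Strs K} (hF : Measurable F) : MO (fun ω => T (F ω)) := by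
  intro w
  refine meas_congr (fun ω => ?_) (Measurable.exists fun t => meas_dst hF w t)
  exact T_iff.symm

theorem mo_Rb {F : Ω → Strs K} (hF : Measurable F) : MO (fun ω => Rb (F ω)) := by
  intro w
  refine meas_congr (fun ω => ?_) (Measurable.exists fun t : List (List Bool) =>
    (meas_fst hF w t).and (mo_ora hF (t.map (sb (true :: true :: w))).flatten))
  exact Rb_iff.symm

theorem measurable_rho (hK : 1 ≤ K) {F : Ω → Strs K} (hF : Measurable F) :
    Measurable fun ω => rho (F ω) := meas_ac hK (mo_Rb hF) hF

theorem mo_oA (hK : 1 ≤ K) {F : Ω → Strs K} (hF : Measurable F) : MO (fun ω => oA (F ω)) := by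
  intro q
  rcases q with _ | ⟨_ | _, q⟩
  · exact (measurable_const : Measurable fun _ : Ω => (false = true))
  · exact mo_ora (measurable_rho hK hF) q
  · exact mo_Rb hF q

theorem mo_oB (hK : 1 ≤ K) {F : Ω → Strs K} (hF : Measurable F) : MO (fun ω => oB (F ω)) := by
  intro q
  rcases q with _ | ⟨_ | _, q⟩
  · exact (measurable_const : Measurable fun _ : Ω => (false = true))
  · exact mo_ora (measurable_rho hK hF) q
  · exact (measurable_const : Measurable fun _ : Ω => (false = true))

theorem mo_coin : MO (fun p : Oracle × Strs K => p.1) := by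
  intro q
  have h1 : Measurable fun b : Bool => (b = true) := measurable_from_top
  exact h1.comp ((measurable_pi_apply q).comp measurable_fst)

theorem measurable_Psi (hK : 1 ≤ K) : Measurable fun p : Oracle × Strs K => Psi p.1 p.2 := by
  refine meas_ac hK (C := fun p : Oracle × Strs K => sw p.1 p.2) (fun w => ?_) measurable_snd
  exact mo_and (O := fun (p : Oracle × Strs K) _ => p.1 (true :: w))
    (O' := fun (p : Oracle × Strs K) => T p.2) (fun _ => mo_coin (true :: w))
    (mo_T measurable_snd) w

theorem measurable_Psi_right (hK : 1 ≤ K) (c : Oracle) : Measurable (Psi (K := K) c) := by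
  have h1 : Measurable (fun R : Strs K => ((c, R) : Oracle × Strs K)) := measurable_prodMk_left
  have h2 := Measurable.comp (g := fun p : Oracle × Strs K => Psi p.1 p.2) (measurable_Psi hK) h1
  exact h2

/-! ### Locality -/

theorem val_local (hK : 1 ≤ K) {R R' : Strs K} {w : List Bool}
    (h : R (w.length + 2) = R' (w.length + 2)) (e : Bool) {t : List (List Bool)}
    (ht : Tup K (w.length + 2) t) : val R w e t = val R' w e t :=
  ora_congr hK h (tup_sb ht e)

theorem T_local (hK : 1 ≤ K) {R R' : Strs K} {n : ℕ} (h : R n = R' n) {w : List Bool}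
    (hw : w.length + 2 = n) : T R w = T R' w := by
  subst hw
  rw [Bool.eq_iff_iff, T_iff, T_iff]
  refine exists_congr fun t => ?_
  unfold dst
  refine and_congr_right fun ht => ?_
  rw [val_local hK h false ht, val_local hK h true ht]

theorem P_congr {c d : Oracle} {n : ℕ} (h : ∀ w : List Bool, w.length + 2 = n → c w = d w) :
    P c n = P d n := by
  refine ext_at fun y hy => ?_
  rw [app_P, app_P]
  exact flip_congr fun w hw => h w (hw.trans hy)

theorem Psi_local (hK : 1 ≤ K) (c : Oracle) {R R' : Strs K} {n : ℕ} (h : R n = R' n) :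
    Psi c R n = Psi c R' n := by
  unfold Psi ac
  rw [h, P_congr (c := sw c R) (d := sw c R') fun w hw => by
    unfold sw
    rw [T_local hK h hw]]

/-- the empty relations -/
def zr : Strs K := fun _ => fun _ => false

/-- the action on one relation -/
noncomputable def psi (c : Oracle) (n : ℕ) (r : Str K n) : Str K n :=
  Psi c (Function.update zr n r) n

theorem Psi_apply (hK : 1 ≤ K) (c : Oracle) (R : Strs K) (n : ℕ) :
    Psi c R n = psi c n (R n) := Psi_local hK c (by rw [Function.update_self])

theorem psi_psi (hK : 1 ≤ K) (c : Oracle) (n : ℕ) (r : Str K n) : psi c n (psi c n r) = r := by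
  have h1 : psi c n (psi c n r) =
      psi c n (Psi c (Function.update zr n r) n) := rfl
  rw [h1, ← Psi_apply hK, Psi_Psi hK, Function.update_self]

/-- invariance under renaming -/
def Inv (μ : (n : ℕ) → PMF (Str K n)) : Prop :=
  ∀ (n : ℕ) (τ : Equiv.Perm (Fin n → Bool)) (r : Str K n), μ n (ren τ r) = μ n r

variable {μ : (n : ℕ) → PMF (Str K n)}

theorem psi_inv (hμ : Inv μ) (c : Oracle) (n : ℕ) (r : Str K n) : μ n (psi c n r) = μ n r := by
  have h1 : psi c n r = ren (P (sw c (Function.update zr n r)) n) r := by
    unfold psi Psi ac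
    rw [Function.update_self]
  rw [h1, hμ]

theorem map_psi (hK : 1 ≤ K) (hμ : Inv μ) (c : Oracle) (n : ℕ) :
    (μ n).toMeasure.map (psi c n) = (μ n).toMeasure := by
  refine Measure.ext_of_singleton fun r => ?_
  rw [Measure.map_apply measurable_from_top (MeasurableSet.singleton r)]
  have h1 : psi c n ⁻¹' {r} = {psi c n r} := by
    ext r'
    simp only [Set.mem_preimage, Set.mem_singleton_iff]
    constructor
    · rintro rfl; rw [psi_psi hK]
    · rintro rfl; rw [psi_psi hK]
  rw [h1, PMF.toMeasure_apply_singleton _ _ (MeasurableSet.singleton _),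
    PMF.toMeasure_apply_singleton _ _ (MeasurableSet.singleton _), psi_inv hμ]

instance : IsProbabilityMeasure (law μ) := by
  unfold law
  infer_instance

theorem map_Psi (hK : 1 ≤ K) (hμ : Inv μ) (c : Oracle) : (law μ).map (Psi c) = law μ := by
  have h1 : Psi (K := K) c = fun R n => psi c n (R n) := by
    funext R n
    exact Psi_apply hK c R n
  unfold law
  rw [h1, Measure.infinitePi_map_pi (μ := fun n => (μ n).toMeasure)
    (fun n => measurable_from_top)]
  congr 1
  funext n
  exact map_psi hK hμ c n

/-- **The transfer.** -/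
theorem null_of_Psi (hK : 1 ≤ K) (hμ : Inv μ) {γ : Measure Oracle} [IsProbabilityMeasure γ]
    {E : Set (Strs K)} (hE : MeasurableSet E) (h : ∀ R, ∀ᵐ c ∂γ, Psi c R ∉ E) :
    law μ E = 0 := by
  set G : Set (Oracle × Strs K) := (fun p => Psi p.1 p.2) ⁻¹' E with hG
  have hGm : MeasurableSet G := measurable_Psi hK hE
  have h1 : (γ.prod (law μ)) G = law μ E := by
    rw [Measure.prod_apply hGm]
    have h2 : ∀ c, law μ (Prod.mk c ⁻¹' G) = law μ E := by
      intro c
      have h3 : Prod.mk c ⁻¹' G = Psi c ⁻¹' E := rfl
      rw [h3, ← Measure.map_apply (measurable_Psi_right hK c) hE, map_Psi hK hμ]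
    simp only [h2]
    simp
  have h4 : (γ.prod (law μ)) G = 0 := by
    rw [Measure.prod_apply_symm hGm]
    have h5 : ∀ R, γ ((fun c => (c, R)) ⁻¹' G) = 0 := by
      intro R
      have h6 := h R
      rw [ae_iff] at h6
      have h7 : ((fun c => (c, R)) ⁻¹' G) = {c | ¬ Psi c R ∉ E} := by
        ext c
        simp [hG]
      rw [h7, h6]
    simp only [h5]
    simp
  rw [← h1, h4]

end Pool.Agent.TH442.RS
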