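import Pool.Agent.TH442.RS.Many
import Pool.Agent.TH442.RS.Hard
import Pool.Agent.TH442.RS.Easy

/-! The law. -/

set_option autoImplicit false

namespace Pool.Agent.TH442.RS

open MeasureTheory ProbabilityTheory Pool.Agent.H620R2.Gauge Pool.Agent.W900.IE

variable {K : ℕ} {μ : (n : ℕ) → PMF (Str K n)}

theorem law_eval (n : ℕ) (t : Set (Str K n)) :
    law μ {R | R n ∈ t} = (μ n).toMeasure t := by
  have h1 := measurePreserving_eval_infinitePi (fun n => (μ n).toMeasure) n
  exact h1.measure_preimage (s := t) (MeasurableSet.of_discrete (s := t)).nullMeasurableSet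

theorem meas_ev (n : ℕ) (t : Set (Str K n)) : MeasurableSet {R : Strs K | R n ∈ t} :=
  measurable_pi_apply n (show MeasurableSet t from trivial)

/-- a family of events for all the lengths -/
def extd (t : (m : ℕ) → Set (Str K (m + 2))) : (n : ℕ) → Set (Str K n)
  | 0 => Set.univ
  | 1 => Set.univ
  | m + 2 => t m

theorem indep_ev (t : (m : ℕ) → Set (Str K (m + 2))) :
    iIndepSet (fun m => {R : Strs K | R (m + 2) ∈ t m}) (law μ) := by
  rw [iIndepSet_iff_meas_biInter (fun m => meas_ev (m + 2) (t m))]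
  intro S
  have h1 : (⋂ m ∈ S, {R : Strs K | R (m + 2) ∈ t m}) =
      Set.pi ((S.image (fun m => m + 2) : Finset ℕ) : Set ℕ) (extd t) := by
    ext R
    simp only [Set.mem_iInter, Set.mem_ofPred_eq, Set.mem_pi, Finset.coe_image, Set.mem_image,
      Finset.mem_coe, forall_exists_index, and_imp, forall_apply_eq_imp_iff₂]
    rfl
  rw [h1]
  conv_lhs => unfold law
  rw [Measure.infinitePi_pi (μ := fun n => (μ n).toMeasure) (fun _ _ => trivial),
    Finset.prod_image (fun a _ b _ h => by simpa using h)]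
  refine Finset.prod_congr rfl fun m _ => ?_
  rw [law_eval]
  rfl

theorem supp_le {n : ℕ} (r : Str K n) : supp r ≤ 2 ^ n := by
  have h1 := spp_le (X := Fin n → Bool) (sup_univ (X := Fin n → Bool) r)
  have h2 : (Finset.univ : Finset (Fin n → Bool)).card = 2 ^ n := by simp
  rw [h2] at h1
  exact h1

theorem poly_of_eventually {R : Strs K} {c : ℕ}
    (h : ∀ᶠ n : ℕ in Filter.atTop, ¬ n ^ c ≤ supp (R n)) :
    ∃ c : ℕ, ∀ n, supp (R n) ≤ n ^ c + c := by
  obtain ⟨m₀, hm₀⟩ := Filter.eventually_atTop.1 h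
  obtain ⟨c', hc'⟩ := poly_le (Polynomial.X ^ c) (2 ^ m₀)
  refine ⟨c', fun n => le_trans ?_ (hc' n)⟩
  have he : (Polynomial.X ^ c : Polynomial ℕ).eval n = n ^ c := by simp
  rw [he]
  rcases Nat.lt_or_ge n m₀ with h1 | h1
  · have h2 : supp (R n) ≤ 2 ^ n := supp_le _
    have h3 : 2 ^ n ≤ 2 ^ m₀ := Nat.pow_le_pow_right (by norm_num) h1.le
    omega
  · exact le_trans (le_of_lt (not_le.1 (hm₀ n h1))) (Nat.le_add_right _ _)

/-- **Small supports.** -/
theorem ae_poly {c : ℕ}
    (h : (∑' n : ℕ, (μ n).toMeasure {r | n ^ c ≤ supp r}) ≠ ⊤) :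
    ∀ᵐ R ∂(law μ), ∃ c : ℕ, ∀ n, supp (R n) ≤ n ^ c + c := by
  have h1 : (∑' n : ℕ, law μ {R | R n ∈ {r | n ^ c ≤ supp r}}) ≠ ⊤ := by
    simp only [law_eval]
    exact h
  filter_upwards [ae_eventually_notMem h1] with R hR
  exact poly_of_eventually hR

/-- **Large supports.** -/
theorem ae_large (hK : 1 ≤ K) (hμ : Inv μ)
    (h : ∀ c : ℕ, (∑' n : ℕ, (μ n).toMeasure {r | n ^ c ≤ supp r}) = ⊤) :
    ∀ᵐ R ∂(law μ), Large R := by
  have hm : ∀ c : ℕ,
      (∑' m : ℕ, (μ (m + 2)).toMeasure {r | (m + 2) ^ c ≤ supp r}) = ⊤ := by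
    intro c
    by_contra hcon
    have h1 := h c
    rw [tsum_eq_zero_add' ENNReal.summable, tsum_eq_zero_add' ENNReal.summable,
      ENNReal.add_eq_top, ENNReal.add_eq_top] at h1
    rcases h1 with h1 | h1 | h1
    · exact measure_ne_top _ _ h1
    · exact measure_ne_top _ _ h1
    · exact hcon h1
  set e : ℕ := 2 * cst K with he
  have key : ∀ c : ℕ, ∀ᵐ R ∂(law μ), ∃ᶠ m : ℕ in Filter.atTop,
      R ∈ {R : Strs K | R (m + 2) ∈ {r | (m + 2) ^ (c + e) ≤ cst K * G m r}} := by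
    intro c
    have h1 : (∑' m : ℕ, law μ {R | R (m + 2) ∈
        {r | (m + 2) ^ (c + e) ≤ cst K * G m r}}) = ⊤ := by
      by_contra hcon
      have h2 : (∑' m : ℕ, (μ (m + 2)).toMeasure {r | (m + 2) ^ (c + e) ≤ supp r}) ≤
          ∑' m : ℕ, (cst K * law μ {R | R (m + 2) ∈ {r | (m + 2) ^ (c + e) ≤ cst K * G m r}} +
            if m ∈ Finset.range (K + 1) then 1 else 0) := by
        refine ENNReal.tsum_le_tsum fun m => ?_
        rw [law_eval]
        by_cases h3 : m ∈ Finset.range (K + 1)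
        · rw [if_pos h3]
          exact le_add_left prob_le_one
        · rw [if_neg h3, add_zero]
          rw [Finset.mem_range] at h3
          exact prob hK hμ (by omega) (Nat.one_le_pow _ _ (by omega))
      have h4 : (∑' m : ℕ, (if m ∈ Finset.range (K + 1) then 1 else 0 : ENNReal)) =
          ((K + 1 : ℕ) : ENNReal) := by
        rw [tsum_eq_sum (s := Finset.range (K + 1)) (fun m hm => if_neg hm),
          Finset.sum_congr rfl (fun m hm => if_pos hm)]
        simp
      rw [hm (c + e), ENNReal.tsum_add, ENNReal.tsum_mul_left, h4] at h2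
      exact ENNReal.add_ne_top.2 ⟨ENNReal.mul_ne_top (ENNReal.natCast_ne_top _) hcon,
        ENNReal.natCast_ne_top _⟩ (top_le_iff.1 h2)
    have h2 := measure_limsup_eq_one (fun m => meas_ev (m + 2) _) (indep_ev
      (fun m => {r : Str K (m + 2) | (m + 2) ^ (c + e) ≤ cst K * G m r})) h1
    have h3 := (mem_ae_iff_prob_eq_one (MeasurableSet.measurableSet_limsup
      (fun m => meas_ev (m + 2) _))).2 h2
    filter_upwards [h3] with R hR
    rw [Filter.mem_limsup_iff_frequently_mem] at hR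
    exact hR
  rw [← ae_all_iff] at key
  filter_upwards [key] with R hR
  intro c
  refine (hR c).mono fun m hm => ?_
  have h4 : (m + 2) ^ (c + e) ≤ cst K * G m (R (m + 2)) := hm
  rw [cT_eq hK]
  have h5 : (m + 1) ^ c * (2 * cst K) ≤ (m + 2) ^ (c + e) := by
    rw [pow_add]
    refine Nat.mul_le_mul (Nat.pow_le_pow_left (by omega) _) ?_
    calc 2 * cst K ≤ 2 ^ (2 * cst K) := Nat.lt_two_pow_self.le
      _ ≤ (m + 2) ^ e := Nat.pow_le_pow_left (by omega) _
  have h6 : cst K * (2 * (m + 1) ^ c) ≤ cst K * G m (R (m + 2)) := by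
    calc cst K * (2 * (m + 1) ^ c) = (m + 1) ^ c * (2 * cst K) := by ring
      _ ≤ _ := h5.trans h4
  exact Nat.le_of_mul_le_mul_left h6 (cst_pos hK)

/-- **The two cases.** -/
theorem ae_cases (hK : 1 ≤ K) (hμ : Inv μ) :
    ∀ᵐ R ∂(law μ), (∃ c : ℕ, ∀ n, supp (R n) ≤ n ^ c + c) ∨ Large R := by
  by_cases h : ∃ c : ℕ, (∑' n : ℕ, (μ n).toMeasure {r | n ^ c ≤ supp r}) ≠ ⊤
  · obtain ⟨c, hc⟩ := h
    filter_upwards [ae_poly hc] with R hR
    exact Or.inl hR
  · push Not at h
    filter_upwards [ae_large hK hμ h] with R hR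
    exact Or.inr hR

/-- **Random relations.** -/
theorem main (hK : 1 ≤ K) (hμ : Inv μ) : ∀ᵐ R ∂(law μ),
    (InfinitePH (ora R) ↔
      (¬ ∃ c : ℕ, ∀ n, supp (R n) ≤ n ^ c + c) ∨ InfinitePH fun _ => false) := by
  filter_upwards [ae_cases hK hμ, ae_hard_str hK hμ] with R h1 h2
  by_cases h : ∃ c : ℕ, ∀ n, supp (R n) ≤ n ^ c + c
  · rw [infinite_iff_of_supp hK h]
    constructor
    · exact Or.inr
    · rintro (h' | h')
      · exact absurd h h'
      · exact h'
  · have h3 := infinite_of_hard hK (h2 (h1.resolve_left h))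
    exact ⟨fun _ => Or.inl h, fun _ => h3⟩

end Pool.Agent.TH442.RS
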